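import Pool.Agent.T9h35.TX.Grid

set_option autoImplicit false

/-!
Average case, all clique sizes, nondecreasing real gates of large fan-in, with a parameter `b`
(the number of bits of a letter) that trades the size of the circuits for the number of further
gates.
-/

namespace Pool.Agent.T9h35.TX

open Finset Pool.Agent.T9h34.S Pool.Agent.T9h34.S.Gr
open Pool.Agent.T9h34 (ind ind_of ind_not ind_nonneg ind_le_one ind_mono smalls Ev Ev_mono Spread
  chi pull Ground wordSet card_wordSet graphInput)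
open Pool.Agent.T9h34.G (Row sparseCode NoiseOp)
open Pool.Agent.T9h34.W (Mg Mg_monotone)
open Pool.Agent.T9h35.RW (Circuit Gate pairOp_circuit)
open scoped Classical

/-- Domination on a block for circuits of nondecreasing real gates. -/
theorem tdom_block {a b k m p : ℕ} {S : Row a b → Fin k → Fin m} {L c f : ℕ} {B κ τ : ℝ}
    {N : NoiseOp (Ground a b)} (H : Hyp N (wordSet (sparseCode S)) L c f B κ τ) {s : ℕ} {δ : ℝ}
    (herr : err (Ground a b) L c s τ ≤ δ)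
    (C : Circuit (GGround a b p)) (hm : ∀ g ∈ C.gates, g.IsMono f) (hs : C.size ≤ s)
    (U : Finset (GGround a b p)) (e' : Fin p × Fin p) :
    Ev (wordSet (sparseCode S)) (fun V => ind (C.eval (chi (put U e' V)) = true)) ≤
      3 * (T9h34.S.powOp N (L + 1)).E (fun W => ind (C.eval (chi (put U e' W)) = true)) + δ := by
  have hev : ∀ V : Finset (Ground a b), (C.subst (ovr U e')).eval (chi V) =
      C.eval (chi (put U e' V)) := by
    intro V
    rw [Circuit.eval_subst, pull_ovr]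
  have hm' : ∀ g ∈ (C.subst (ovr U e')).gates, g.IsMono f := by
    intro g hg
    simp only [Circuit.subst, List.mem_map] at hg
    obtain ⟨g', hg', rfl⟩ := hg
    exact Gate.isMono_subst _ g' (hm g' hg')
  have h := domination H (C.subst (ovr U e')) hm'
  simp only [hev] at h
  rw [Circuit.size_subst] at h
  have h2 := err_mono (X := Ground a b) (L := L) (c := c) H.hτ.le hs
  unfold err at h2 herr
  change _ ≤ 3 * N.iter (L + 1) (fun W => ind (C.eval (chi (put U e' W)) = true)) + δ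
  linarith

/-- The functional for the circuits with nondecreasing gates and `t` further gates. -/
theorem tMg_circuit {n a r m p l c lam f s L0 β : ℕ} {S : Row a (r * β) → Fin 4 → Fin m}
    {N : NoiseOp (Ground a (r * β))} {B κ : ℝ} (e : ℕ → Fin p × Fin p)
    (σ : Fin n × Fin n → GGround a (r * β) p ⊕ Bool)
    (hs : s < 2 ^ L0) (hl : 2 ^ L0 ≤ 2 ^ l) (hl100 : 100 ≤ l) (hβ : β ≤ lam)
    (hc : 3 * l < c * β)
    (hX : Fintype.card (Ground a (r * β)) + 1 ≤ 2 ^ lam)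
    (H : Hyp N (wordSet (sparseCode S)) (5 * (lam * c)) c f B κ ((1 / 2 : ℝ) ^ β))
    (hM : ((p ^ 2 : ℕ) : ℝ) * (1 / 2 : ℝ) ^ (2 * l) ≤ 1) (d : ℕ)
    (C : Circuit (Fin n × Fin n)) (hC : C.size ≤ s) (hd : C.FanIn f d) :
    (Mg S (T9h34.S.powOp N (5 * (lam * c) + 1)) e (p ^ 2)).E
      (fun U W => ind (C.eval (pull σ (chi U)) ≠ C.eval (pull σ (chi W)))) ≤
        5 * ((d + 1) * 2 ^ C.numOther) := by
  have herr : err (Ground a (r * β)) (5 * (lam * c)) c s ((1 / 2 : ℝ) ^ β) ≤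
      2 * (1 / 2 : ℝ) ^ (2 * l) :=
    terr_small hβ hc (by omega) (lt_of_lt_of_le hs hl) hX
  have hδ : (0 : ℝ) ≤ 2 * (1 / 2 : ℝ) ^ (2 * l) := by positivity
  have h1 := pairOp_circuit (Mg S (T9h34.S.powOp N (5 * (lam * c) + 1)) e (p ^ 2)) (f := f) s d
    (γ := 3 + ((p ^ 2 : ℕ) : ℝ) * (2 * (1 / 2 : ℝ) ^ (2 * l))) (by positivity)
    (by
      intro C' hm hC'
      apply Mg_monotone (p ^ 2) (fun U => C'.eval (chi U))
      · intro U V hUV hU
        exact Circuit.eval_mono (f := f) (Gr.chi_le hUV) C' hm hU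
      · exact hδ
      · intro U e'
        exact tdom_block H herr C' hm hC' U e')
    C.numOther (C.subst σ) (Circuit.numOther_subst σ C)
    (by rw [Circuit.size_subst]; exact hC) (Circuit.fanIn_subst σ C hd)
  simp only [Circuit.eval_subst] at h1
  refine h1.trans ?_
  have h2 : (0 : ℝ) ≤ d := Nat.cast_nonneg d
  have h3 : (1 : ℝ) ≤ 2 ^ C.numOther := one_le_pow₀ (by norm_num)
  have h4 : (0 : ℝ) ≤ (2 : ℝ) ^ C.numOther * (1 + d) - d := by nlinarith
  calc ((2 : ℝ) ^ C.numOther * (1 + d) - d) *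
        (3 + ((p ^ 2 : ℕ) : ℝ) * (2 * (1 / 2 : ℝ) ^ (2 * l)))
      ≤ ((2 : ℝ) ^ C.numOther * (1 + d) - d) * 5 := by
        apply mul_le_mul_of_nonneg_left _ h4
        linarith
    _ ≤ ((2 : ℝ) ^ C.numOther * (1 + d)) * 5 := by
        apply mul_le_mul_of_nonneg_right _ (by norm_num)
        linarith
    _ = _ := by ring

/-- **The theorem.** -/
theorem average_case_letters : ∃ K : ℕ, ∀ n k s f b : ℕ, 1 ≤ b → k ≤ n →
    K * (Nat.log 2 s + Nat.log 2 n + 1) *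
      (Nat.log 2 (Nat.log 2 s + Nat.log 2 n + 1 + f) + 1 + b) ^ 3 ≤ k * b ^ 4 →
    ∃ μ : SimpleGraph (Fin n) → ℝ, (∀ G, 0 ≤ μ G) ∧ ∑ G, μ G = 1 ∧
      ∀ (d : ℕ) (C : Circuit (Fin n × Fin n)), C.size ≤ s → C.FanIn f d →
        ((n - k : ℕ) : ℝ) ^ 2 *
            ((∑ G with (C.eval (graphInput G) = true ↔ ∃ T, G.IsNClique k T), μ G) - 1 / 2)
          ≤ K * (Nat.log 2 s + Nat.log 2 n + 1 : ℕ) ^ 2 *
            (Nat.log 2 s + Nat.log 2 n + 1 + f : ℕ) *
            (Nat.log 2 (Nat.log 2 s + Nat.log 2 n + 1 + f) + 1 : ℕ) ^ 7 * 2 ^ (9 * b) *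
            (d + 1) * 2 ^ C.numOther := by
  refine ⟨24 * 10 ^ 33, ?_⟩
  intro n q s f β hβ hqn hq
  obtain ⟨L0, hL0⟩ : ∃ L0, L0 = Nat.log 2 s + Nat.log 2 n + 1 := ⟨_, rfl⟩
  rw [← hL0] at hq ⊢
  obtain ⟨z, hz⟩ : ∃ z, z = Nat.log 2 (L0 + f) + 1 := ⟨_, rfl⟩
  rw [← hz] at hq ⊢
  have hL1 : 1 ≤ L0 := by omega
  have hz1 : 1 ≤ z := by omega
  have hs : s < 2 ^ L0 := lt_of_lt_of_le (Nat.lt_pow_succ_log_self (by norm_num) _)
    (Nat.pow_le_pow_right (by norm_num) (by omega))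
  have hn : n < 2 ^ L0 := lt_of_lt_of_le (Nat.lt_pow_succ_log_self (by norm_num) _)
    (Nat.pow_le_pow_right (by norm_num) (by omega))
  have hq' : 10 ^ 12 * (L0 * (z + β) ^ 3) ≤ q * β ^ 4 := by
    refine le_trans ?_ hq
    rw [mul_assoc]
    exact Nat.mul_le_mul_right _ (by norm_num)
  have hR : ∀ (d t : ℕ), (4 * 10 ^ 33 * ((L0 : ℝ) ^ 2 * (L0 + f) * z ^ 7 * 2 ^ (9 * β))) *
      (6 * ((d + 1) * 2 ^ t)) ≤ ((24 * 10 ^ 33 : ℕ) : ℝ) * (L0 : ℕ) ^ 2 * (L0 + f : ℕ) *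
        (z : ℕ) ^ 7 * 2 ^ (9 * β) * (d + 1) * 2 ^ t := by
    intro d t
    push_cast
    apply le_of_eq
    ring
  have hone : ∀ (d t : ℕ), (1 : ℝ) ≤ (d + 1) * 2 ^ t := by
    intro d t
    have h12 : (1 : ℝ) ≤ d + 1 := by linarith [(Nat.cast_nonneg d : (0 : ℝ) ≤ d)]
    have h13 : (1 : ℝ) ≤ 2 ^ t := one_le_pow₀ (by norm_num)
    exact one_le_mul_of_one_le_of_one_le h12 h13
  by_cases hbig : β ≤ L0 ∧
      4 * 10 ^ 33 * (L0 ^ 2 * (L0 + f) * z ^ 7 * 2 ^ (9 * β)) < (n - q) ^ 2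
  · obtain ⟨a, r, m, p, l, c, lam, S, N, B, κ, e, σ, μ, h1, h2, h3, h4, h5, h6, h7, h8, h9, h10⟩ :=
      tgrid_case hqn hL1 hn hβ hbig.1 hz hq' hbig.2
    refine ⟨μ, h8, h9, ?_⟩
    intro d C hC hd
    have h11 := h10 C.eval _ (tMg_circuit e σ hs h1 h2 h3 h4 h5 h6 h7 d C hC hd)
    refine le_trans h11 (le_trans ?_ (hR d C.numOther))
    apply mul_le_mul_of_nonneg_left _ (by positivity)
    have h12 := hone d C.numOther
    linarith
  · have h3 : ((n - q : ℕ) : ℝ) ^ 2 ≤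
        4 * 10 ^ 33 * ((L0 : ℝ) ^ 2 * (L0 + f) * z ^ 7 * 2 ^ (9 * β)) := by
      have h4 : (n - q) ^ 2 ≤ 4 * 10 ^ 33 * (L0 ^ 2 * (L0 + f) * z ^ 7 * 2 ^ (9 * β)) := by
        by_cases h5 : β ≤ L0
        · by_contra h6
          push Not at h6
          exact hbig ⟨h5, h6⟩
        · push Not at h5
          have h6 : (n - q) ^ 2 ≤ (2 ^ L0) ^ 2 := Nat.pow_le_pow_left (by omega) 2
          have h7 : (2 ^ L0) ^ 2 ≤ 2 ^ (9 * β) := by
            rw [← pow_mul]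
            exact Nat.pow_le_pow_right (by norm_num) (by omega)
          have h8 : 1 ≤ L0 ^ 2 * (L0 + f) * z ^ 7 := Nat.one_le_iff_ne_zero.2 (by positivity)
          calc (n - q) ^ 2 ≤ 2 ^ (9 * β) := h6.trans h7
            _ = 1 * (1 * 2 ^ (9 * β)) := by ring
            _ ≤ 4 * 10 ^ 33 * (L0 ^ 2 * (L0 + f) * z ^ 7 * 2 ^ (9 * β)) :=
                Nat.mul_le_mul (by norm_num) (Nat.mul_le_mul_right _ h8)
      exact_mod_cast h4
    refine ⟨fun G => if G = ⊥ then 1 else 0, fun G => by positivity, by simp, ?_⟩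
    intro d C _ _
    have h2 : (∑ G with (C.eval (graphInput G) = true ↔ ∃ T, G.IsNClique q T),
        (if G = (⊥ : SimpleGraph (Fin n)) then (1 : ℝ) else 0)) ≤ 1 := by
      refine (Finset.sum_le_univ_sum_of_nonneg (fun G => by positivity)).trans (le_of_eq ?_)
      simp
    refine le_trans ?_ (hR d C.numOther)
    have h11 : (1 : ℝ) ≤ 6 * ((d + 1) * 2 ^ C.numOther) := by
      have h12 := hone d C.numOther
      linarith
    obtain ⟨Pr, hPr⟩ : ∃ Pr, Pr = (∑ G with (C.eval (graphInput G) = true ↔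
        ∃ T, G.IsNClique q T), (if G = (⊥ : SimpleGraph (Fin n)) then (1 : ℝ) else 0)) := ⟨_, rfl⟩
    rw [← hPr] at h2 ⊢
    calc ((n - q : ℕ) : ℝ) ^ 2 * (Pr - 1 / 2) ≤ ((n - q : ℕ) : ℝ) ^ 2 * 1 := by
          apply mul_le_mul_of_nonneg_left _ (by positivity)
          linarith
      _ ≤ (4 * 10 ^ 33 * ((L0 : ℝ) ^ 2 * (L0 + f) * z ^ 7 * 2 ^ (9 * β))) *
          (6 * ((d + 1) * 2 ^ C.numOther)) := by
          apply mul_le_mul h3 h11 (by norm_num) (by positivity)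

end Pool.Agent.T9h35.TX
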