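import Pool.Agent.T9h34.S.GridScore

/-!
A grid of blocks: a clique spells a codeword of a sparse code in one block; the check vertices
carry all message bits that are read by a group of bits of a symbol.
-/

set_option autoImplicit false

namespace Pool.Agent.T9h35.TX

open Finset Pool.Agent.T9h34 Pool.Agent.T9h34.S
open Pool.Agent.T9h34.G (Row sparseCode sparseCode_apply)

variable {a r c k m u p : ℕ}

/-- Groups of vertices. -/
abbrev TGrp (a r u : ℕ) : Type := (Fin a × Bool) ⊕ ((Fin a × Bool × Fin r) ⊕ Fin u)

/-- Vertices. -/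
abbrev TVtx (a r c k u p : ℕ) : Type :=
  ((Fin a × Bool) × (Fin p × (Fin (r * c) → ZMod 2))) ⊕
    (((Fin a × Bool × Fin r) × (Fin k × Fin c → ZMod 2)) ⊕ Fin u)

/-- The group of a vertex. -/
def tgrp : TVtx a r c k u p → TGrp a r u
  | .inl q => .inl q.1
  | .inr (.inl q) => .inr (.inl q.1)
  | .inr (.inr i) => .inr (.inr i)

/-- The side of a vertex (if it has one). -/
def tside (σ0 : Fin p) : TVtx a r c k u p → Fin p
  | .inl q => q.2.1
  | .inr _ => σ0

/-- Labels of main vertices. -/
def tlab0 : TVtx a r c k u p → (Fin (r * c) → ZMod 2)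
  | .inl q => q.2.2
  | .inr _ => 0

/-- Labels of check vertices. -/
def tlab2 : TVtx a r c k u p → (Fin k × Fin c → ZMod 2)
  | .inl _ => 0
  | .inr (.inl q) => q.2
  | .inr (.inr _) => 0

variable (S : Row a (r * c) → Fin k → Fin m)

/-- The vertex that a message and two sides select in a group. -/
def tvert (s : Fin m → ZMod 2) (σ : Bool → Fin p) : TGrp a r u → TVtx a r c k u p
  | .inl q => .inl (q, (σ q.2, fun j => sparseCode S s q.1 (q.2, j)))
  | .inr (.inl q) => .inr (.inl (q, fun w =>
      s (S (q.1, (q.2.1, finProdFinEquiv (q.2.2, w.2))) w.1)))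
  | .inr (.inr i) => .inr (.inr i)

theorem tgrp_tvert (s : Fin m → ZMod 2) (σ : Bool → Fin p) (g : TGrp a r u) :
    tgrp (tvert S s σ g) = g := by
  rcases g with g | g | g <;> rfl

/-- Two vertices of different groups that are selected together. -/
def TBase (x y : TVtx a r c k u p) : Prop :=
  tgrp x ≠ tgrp y ∧ ∃ s σ, tvert S s σ (tgrp x) = x ∧ tvert S s σ (tgrp y) = y

theorem TBase.symm {x y : TVtx a r c k u p} (h : TBase S x y) : TBase S y x :=
  ⟨fun e => h.1 e.symm, by obtain ⟨s, σ, h1, h2⟩ := h.2; exact ⟨s, σ, h2, h1⟩⟩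

/-- The status of a pair of vertices that can be selected together. -/
def tlabel : TVtx a r c k u p → TVtx a r c k u p → GGround a (r * c) p ⊕ Bool
  | .inl ((i, h), (q, z)), .inl ((i', _), (q', z')) =>
      if i = i' then .inl (blk h q q', (i, comb h z z')) else .inr true
  | .inl _, .inr _ => .inr true
  | .inr _, _ => .inr true

theorem tlabel_symm {x y : TVtx a r c k u p} (h : tgrp x ≠ tgrp y) : tlabel x y = tlabel y x := by
  rcases x with ⟨⟨i, hh⟩, ⟨q, z⟩⟩ | x
  · rcases y with ⟨⟨i', hh'⟩, ⟨q', z'⟩⟩ | y
    · simp only [tlabel]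
      by_cases hi : i = i'
      · subst hi
        rw [if_pos rfl, if_pos rfl]
        have hne : hh ≠ hh' := by
          intro e
          apply h
          simp [tgrp, e]
        rw [comb_symm hne]
        have : blk hh q q' = blk hh' q' q := by
          cases hh <;> cases hh' <;> simp_all [blk]
        rw [this]
      · rw [if_neg hi, if_neg (Ne.symm hi)]
    · rfl
  · rcases y with y | y <;> rfl

/-- The status of a pair of vertices. -/
noncomputable def tedge (x y : TVtx a r c k u p) : GGround a (r * c) p ⊕ Bool := by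
  classical
  exact if TBase S x y then tlabel x y else .inr false

theorem tedge_symm (x y : TVtx a r c k u p) : tedge S x y = tedge S y x := by
  unfold tedge
  by_cases h : TBase S x y
  · rw [if_pos h, if_pos h.symm, tlabel_symm h.1]
  · rw [if_neg h, if_neg (fun h' => h h'.symm)]

/-- The graph of an input set. -/
def tgraph (Z : Finset (GGround a (r * c) p)) : SimpleGraph (TVtx a r c k u p) where
  Adj x y := Sum.elim (fun q => q ∈ Z) (fun c => c = true) (tedge S x y)
  symm := ⟨by
    intro x y h
    rw [tedge_symm]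
    exact h⟩
  loopless := ⟨by
    intro x h
    unfold tedge at h
    rw [if_neg (fun h' => h'.1 rfl)] at h
    exact absurd h (by simp)⟩

theorem tgraph_adj (Z : Finset (GGround a (r * c) p)) (x y : TVtx a r c k u p) :
    (tgraph S Z).Adj x y ↔ Sum.elim (fun q => q ∈ Z) (fun c => c = true) (tedge S x y) := Iff.rfl

theorem tbase_of_adj {Z : Finset (GGround a (r * c) p)} {x y : TVtx a r c k u p}
    (h : (tgraph S Z).Adj x y) : TBase S x y := by
  by_contra hb
  rw [tgraph_adj] at h
  unfold tedge at h
  rw [if_neg hb] at h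
  simp at h

theorem tclique_iff (ha : 0 < a) (Z : Finset (GGround a (r * c) p)) :
    (∃ T : Finset (TVtx a r c k u p), (tgraph S Z).IsNClique (Fintype.card (TGrp a r u)) T)
      ↔ Gr.HasWord S Z := by
  classical
  constructor
  · rintro ⟨T, hT⟩
    rw [SimpleGraph.isNClique_iff] at hT
    obtain ⟨hcl, hcard⟩ := hT
    have hinj : Set.InjOn tgrp (T : Set (TVtx a r c k u p)) := by
      intro x hx y hy hxy
      by_contra hne
      exact (tbase_of_adj S (hcl hx hy hne)).1 hxy
    have himg : T.image tgrp = univ := by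
      rw [← Finset.card_eq_iff_eq_univ, Finset.card_image_of_injOn hinj, hcard]
    have hex : ∀ g : TGrp a r u, ∃ x ∈ T, tgrp x = g := by
      intro g
      have : g ∈ T.image tgrp := by rw [himg]; exact Finset.mem_univ g
      rw [Finset.mem_image] at this
      exact this
    choose x hxS hxg using hex
    have hadj : ∀ g g', g ≠ g' → (tgraph S Z).Adj (x g) (x g') := by
      intro g g' hne
      apply hcl (hxS g) (hxS g')
      intro h
      apply hne
      rw [← hxg g, ← hxg g', h]
    have hcons : ∀ g g', g ≠ g' → ∃ s σ, tvert S s σ g = x g ∧ tvert S s σ g' = x g' := by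
      intro g g' hne
      obtain ⟨s, σ, h1, h2⟩ := (tbase_of_adj S (hadj g g' hne)).2
      rw [hxg] at h1 h2
      exact ⟨s, σ, h1, h2⟩
    -- the sides
    set i0 : Fin a := ⟨0, ha⟩ with hi0
    obtain ⟨-, σ00, -, -⟩ := hcons (.inl (i0, false)) (.inl (i0, true)) (by simp)
    set σ0 : Fin p := σ00 false with hσ0
    set σ : Bool → Fin p := fun h => tside σ0 (x (.inl (i0, h))) with hσ
    have hside : ∀ i h, tside σ0 (x (.inl (i, h))) = σ h := by
      intro i h
      by_cases hi : i = i0
      · rw [hi]
      · obtain ⟨s, σ', h1, h2⟩ := hcons (.inl (i, h)) (.inl (i0, h)) (by simpa using hi)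
        rw [hσ]
        simp only
        rw [← h1, ← h2]
        rfl
    -- the message
    set t : Fin m → ZMod 2 := fun v =>
      if h : ∃ q : (Fin a × Bool × Fin r) × (Fin k × Fin c),
          S (q.1.1, (q.1.2.1, finProdFinEquiv (q.1.2.2, q.2.2))) q.2.1 = v then
        tlab2 (x (.inr (.inl h.choose.1))) h.choose.2 else 0 with ht
    have hself : ∀ g : Fin a × Bool × Fin r, ∃ s : Fin m → ZMod 2,
        tlab2 (x (.inr (.inl g))) = fun w =>
          s (S (g.1, (g.2.1, finProdFinEquiv (g.2.2, w.2))) w.1) := by
      intro g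
      obtain ⟨s, σ', h1, _⟩ := hcons (.inr (.inl g)) (.inl (i0, false)) (by simp)
      refine ⟨s, ?_⟩
      rw [← h1]
      rfl
    have hA : ∀ (g : Fin a × Bool × Fin r) (w : Fin k × Fin c),
        tlab2 (x (.inr (.inl g))) w =
          t (S (g.1, (g.2.1, finProdFinEquiv (g.2.2, w.2))) w.1) := by
      intro g w
      have hex : ∃ q : (Fin a × Bool × Fin r) × (Fin k × Fin c),
          S (q.1.1, (q.1.2.1, finProdFinEquiv (q.1.2.2, q.2.2))) q.2.1 =
            S (g.1, (g.2.1, finProdFinEquiv (g.2.2, w.2))) w.1 := ⟨(g, w), rfl⟩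
      have ht' : t (S (g.1, (g.2.1, finProdFinEquiv (g.2.2, w.2))) w.1) =
          tlab2 (x (.inr (.inl hex.choose.1))) hex.choose.2 := by
        rw [ht]
        simp only
        rw [dif_pos hex]
      rw [ht']
      have hch := hex.choose_spec
      generalize hex.choose = q at hch
      by_cases he : g = q.1
      · obtain ⟨s, hs⟩ := hself g
        rw [← he, hs]
        simp only
        rw [← he] at hch
        rw [hch]
      · obtain ⟨s, σ', h1, h2⟩ := hcons (.inr (.inl g)) (.inr (.inl q.1))
          (by intro e; apply he; simpa using e)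
        rw [← h1, ← h2]
        change s (S (g.1, (g.2.1, finProdFinEquiv (g.2.2, w.2))) w.1) =
          s (S (q.1.1, (q.1.2.1, finProdFinEquiv (q.1.2.2, q.2.2))) q.2.1)
        rw [hch]
    have hC : ∀ i h j, tlab0 (x (.inl (i, h))) j = sparseCode S t i (h, j) := by
      intro i h j
      obtain ⟨s, σ', h1, h2⟩ := hcons (.inl (i, h))
        (.inr (.inl (i, h, (finProdFinEquiv.symm j).1))) (by simp)
      rw [← h1]
      change sparseCode S s i (h, j) = _
      rw [sparseCode_apply, sparseCode_apply]
      apply Finset.sum_congr rfl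
      intro l _
      have h3 := hA (i, h, (finProdFinEquiv.symm j).1) (l, (finProdFinEquiv.symm j).2)
      rw [← h2] at h3
      change s (S (i, (h, finProdFinEquiv ((finProdFinEquiv.symm j).1,
        (finProdFinEquiv.symm j).2))) l) = t (S (i, (h, finProdFinEquiv
          ((finProdFinEquiv.symm j).1, (finProdFinEquiv.symm j).2))) l) at h3
      rw [Prod.mk.eta, Equiv.apply_symm_apply] at h3
      exact h3
    refine ⟨(σ false, σ true), t, ?_⟩
    intro q hq
    have hq' := mem_wordSet.1 hq
    obtain ⟨i, y⟩ := q
    simp only at hq'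
    subst hq'
    have h8 := hadj (.inl (i, false)) (.inl (i, true)) (by simp)
    have h9 := tbase_of_adj S h8
    rw [tgraph_adj] at h8
    unfold tedge at h8
    rw [if_pos h9] at h8
    have hx1 : ∀ h, x (.inl (i, h)) =
        .inl ((i, h), (tside σ0 (x (.inl (i, h))), tlab0 (x (.inl (i, h))))) := by
      intro h
      have := hxg (.inl (i, h))
      revert this
      generalize x (.inl (i, h)) = w
      intro hw
      rcases w with ⟨q, z⟩ | w | w
      · simp only [tgrp, Sum.inl.injEq] at hw
        subst hw
        rfl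
      · simp [tgrp] at hw
      · simp [tgrp] at hw
    rw [hx1 false, hx1 true] at h8
    simp only [tlabel, if_true, Sum.elim_inl] at h8
    have h10 : comb false (tlab0 (x (.inl (i, false)))) (tlab0 (x (.inl (i, true))))
        = sparseCode S t i := by
      funext q
      obtain ⟨p1, p2⟩ := q
      simp only [comb]
      cases p1
      · simp [hC]
      · simp [hC]
    rw [h10, hside, hside] at h8
    simpa [blk] using h8
  · rintro ⟨e, s, hs⟩
    set σ : Bool → Fin p := fun h => if h = true then e.2 else e.1 with hσ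
    refine ⟨univ.image (tvert S s σ), ?_⟩
    rw [SimpleGraph.isNClique_iff]
    constructor
    · intro x hx y hy hne
      rw [Finset.coe_image, Set.mem_image] at hx hy
      obtain ⟨g, _, rfl⟩ := hx
      obtain ⟨g', _, rfl⟩ := hy
      have hgg : g ≠ g' := fun e => hne (by rw [e])
      have hbase : TBase S (tvert S s σ g) (tvert S s σ g') := by
        refine ⟨by rw [tgrp_tvert, tgrp_tvert]; exact hgg, s, σ, ?_, ?_⟩
        · rw [tgrp_tvert]
        · rw [tgrp_tvert]
      rw [tgraph_adj]
      unfold tedge
      rw [if_pos hbase]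
      rcases g with ⟨i, h⟩ | g
      · rcases g' with ⟨i', h'⟩ | g'
        · simp only [tvert, tlabel]
          by_cases hi : i = i'
          · subst hi
            rw [if_pos rfl, Sum.elim_inl]
            have hh : h ≠ h' := fun e => hgg (by rw [e])
            have he : blk h (σ h) (σ h') = e := by
              rw [hσ]
              cases h <;> cases h' <;> simp_all [blk]
            rw [he]
            apply hs
            rw [mem_wordSet]
            simp only
            funext q
            obtain ⟨p1, p2⟩ := q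
            simp only [comb]
            cases p1 <;> cases h <;> cases h' <;> simp_all
          · rw [if_neg hi]
            rfl
        · rcases g' with g' | g' <;> rfl
      · rcases g with g | g <;> rfl
    · rw [Finset.card_image_of_injective, Finset.card_univ]
      intro g g' h
      rw [← tgrp_tvert S s σ g, ← tgrp_tvert S s σ g', h]

/-- The projection from the clique problem on `n` vertices. -/
noncomputable def tproj {n : ℕ} (f : TVtx a r c k u p ↪ Fin n) :
    Fin n × Fin n → GGround a (r * c) p ⊕ Bool := by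
  classical
  exact fun q => if h : ∃ w : TVtx a r c k u p × TVtx a r c k u p, f w.1 = q.1 ∧ f w.2 = q.2 then
    tedge S h.choose.1 h.choose.2 else .inr false

theorem pull_tproj {n : ℕ} (f : TVtx a r c k u p ↪ Fin n) (Z : Finset (GGround a (r * c) p)) :
    pull (tproj S f) (chi Z) = graphInput ((tgraph S Z).map f) := by
  classical
  funext q
  unfold pull tproj graphInput
  split_ifs with h
  · have h1 := h.choose_spec
    generalize h.choose = w at h1
    obtain ⟨x, y⟩ := w
    simp only at h1 ⊢
    have h2 : ((tgraph S Z).map f).Adj q.1 q.2 ↔ (tgraph S Z).Adj x y := by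
      rw [SimpleGraph.map_adj]
      constructor
      · rintro ⟨x', y', h3, h4, h5⟩
        have e1 : x' = x := f.injective (h4.trans h1.1.symm)
        have e2 : y' = y := f.injective (h5.trans h1.2.symm)
        rw [← e1, ← e2]
        exact h3
      · intro h3
        exact ⟨x, y, h3, h1.1, h1.2⟩
    have key : (Sum.elim (chi Z) id (tedge S x y) = true)
        ↔ ((tgraph S Z).map f).Adj q.1 q.2 := by
      rw [h2, tgraph_adj]
      cases hE : tedge S x y with
      | inl q => simp [chi]
      | inr c => simp
    rw [Bool.eq_iff_iff]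
    simp only [decide_eq_true_eq]
    exact key
  · have h2 : ¬ ((tgraph S Z).map f).Adj q.1 q.2 := by
      rw [SimpleGraph.map_adj]
      rintro ⟨x', y', _, h4, h5⟩
      exact h ⟨(x', y'), h4, h5⟩
    simp [h2]

/-- The embedding: the graph of a set of grid variables is a projection of the set, and it has a
clique of size `q` iff the set contains a word. -/
theorem t_embedding {n q : ℕ} (ha : 1 ≤ a) (hq : a * 2 + a * (2 * r) ≤ q) (hqn : q ≤ n)
    (hp : 1 ≤ p) (hw : p * (a * 2 * 2 ^ (r * c) + a * (2 * r) * 2 ^ (k * c)) ≤ n - q) :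
    ∃ (σ : Fin n × Fin n → GGround a (r * c) p ⊕ Bool)
      (Φ : Finset (GGround a (r * c) p) → SimpleGraph (Fin n)),
      (∀ Z, (∃ T, (Φ Z).IsNClique q T) ↔ Gr.HasWord S Z) ∧
      ∀ Z, pull σ (chi Z) = graphInput (Φ Z) := by
  classical
  obtain ⟨u, hu⟩ : ∃ u, q = a * 2 + (a * (2 * r) + u) :=
    ⟨q - (a * 2 + a * (2 * r)), by omega⟩
  have hcardG : Fintype.card (TGrp a r u) = q := by
    simp only [TGrp, Fintype.card_sum, Fintype.card_prod, Fintype.card_fin, Fintype.card_bool]
    omega
  have hcard : Fintype.card (TVtx a r c k u p) ≤ Fintype.card (Fin n) := by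
    simp only [TVtx, Fintype.card_sum, Fintype.card_prod, Fintype.card_fin,
      Fintype.card_bool, Fintype.card_fun, ZMod.card]
    have h1 : a * 2 * (p * 2 ^ (r * c)) + a * (2 * r) * 2 ^ (k * c) ≤ n - q := by
      refine le_trans ?_ hw
      calc a * 2 * (p * 2 ^ (r * c)) + a * (2 * r) * 2 ^ (k * c)
          = p * (a * 2 * 2 ^ (r * c)) + 1 * (a * (2 * r) * 2 ^ (k * c)) := by ring
        _ ≤ p * (a * 2 * 2 ^ (r * c)) + p * (a * (2 * r) * 2 ^ (k * c)) :=
            Nat.add_le_add_left (Nat.mul_le_mul_right _ hp) _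
        _ = p * (a * 2 * 2 ^ (r * c) + a * (2 * r) * 2 ^ (k * c)) := by ring
    have h2 : a * 2 * (p * 2 ^ (r * c)) + (a * (2 * r) * 2 ^ (k * c) + u) ≤ n := by omega
    exact h2
  obtain ⟨f⟩ := Function.Embedding.nonempty_of_card_le hcard
  haveI : Nonempty (TVtx a r c k u p) :=
    ⟨.inl ((⟨0, ha⟩, false), (⟨0, hp⟩, 0))⟩
  refine ⟨tproj S f, fun Z => (tgraph S Z).map f, ?_, fun Z => pull_tproj S f Z⟩
  intro Z
  rw [← tclique_iff (u := u) S ha Z, hcardG]
  have := SimpleGraph.cliqueFree_map_iff (G := tgraph (u := u) S Z) (f := f) (n := q)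
  unfold SimpleGraph.CliqueFree at this
  constructor
  · intro h
    by_contra hc
    push Not at hc
    obtain ⟨T, hT⟩ := h
    exact this.2 hc T hT
  · intro h
    by_contra hc
    push Not at hc
    obtain ⟨T, hT⟩ := h
    exact this.1 hc T hT

end Pool.Agent.T9h35.TX
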