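import Pool.Agent.T9h35.RW.Approx

/-!
Closed approximators for circuits of nondecreasing real gates of large fan-in: a version with
smaller errors.
-/

set_option autoImplicit false

namespace Pool.Agent.T9h35.TX

open Finset
open Pool.Agent.T9h34 (ind ind_of ind_not ind_nonneg ind_le_one ind_mono ind_or_le cov cov_mono
  smalls mem_smalls Ev Ev_mono Ev_add Ev_const_mul Spread chi pull)
open Pool.Agent.T9h35.Wide (closed_empty closed_smalls exists_inputs geom_Icc pow_le_two_pow)
open Pool.Agent.T9h35.RW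

variable {X : Type*} [Fintype X] [DecidableEq X] {Ω : Type*} [Fintype Ω] {N : T9h34.G.NoiseOp X}

theorem Ev_rbad_tau {L c : ℕ} {B : ℝ} (hL : 0 < L) (hB1 : 1 ≤ B) (hcov : T9h34.G.Covers N c B)
    (v : Ω → Finset X) {κ τ : ℝ} (hκ : 0 ≤ κ) (hτ : 0 < τ) (hτ1 : τ ≤ 1)
    (hsp : Spread v (2 * c) κ)
    (hBκ : 16 * (B * κ) ≤ τ) {m : ℕ} (hm : 24 * (B * κ * m) ≤ τ * c)
    (l : List (ℝ → Finset (Finset X))) (hl : ∀ F ∈ l, Chain N L c F)
    (hlm : l.length ≤ m) : Ev v (fun Z => ind (RBad c l ∅ Z)) ≤ τ ^ c := by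
  have hB0 : 0 ≤ B := by linarith
  have hBκ0 : 0 ≤ B * κ := mul_nonneg hB0 hκ
  have hsp' : Spread v (2 * c) (τ / 2 * (2 * κ / τ)) := by
    have : (τ / 2 * (2 * κ / τ) : ℝ) = κ := by field_simp
    rw [this]; exact hsp
  obtain ⟨x, hx⟩ : ∃ x, x = B * κ / τ := ⟨_, rfl⟩
  have hx0 : 0 ≤ x := by rw [hx]; positivity
  have hx1 : 16 * x ≤ 1 := by
    rw [hx, ← mul_div_assoc, div_le_one hτ]
    exact hBκ
  have hxm : 24 * (x * m) ≤ c := by
    have h1 : 24 * (x * m) = 24 * (B * κ * m) / τ := by rw [hx]; ring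
    rw [h1, div_le_iff₀ hτ]
    linarith
  set g := ∑ δ ∈ Finset.Icc 1 c, (2 * B * (2 * κ / τ)) ^ δ with hg
  have hg1 : g ≤ 8 * x := by
    have h2 : 2 * B * (2 * κ / τ) = 4 * x := by rw [hx]; ring
    have := geom_Icc (z := 2 * B * (2 * κ / τ)) (by rw [h2]; positivity)
      (by rw [h2]; linarith) c
    rw [← hg, h2] at this
    linarith
  have hg0 : 0 ≤ g := Finset.sum_nonneg fun δ _ => by positivity
  have hghalf : g ≤ 1 / 2 := by linarith
  have h1g : 0 < 1 - g := by linarith
  have hQ : (1 - g)⁻¹ * (1 - g) = 1 := inv_mul_cancel₀ h1g.ne'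
  have hQ1 : 1 ≤ (1 - g)⁻¹ := by
    rw [one_le_inv₀ h1g]; linarith
  have hQ2 : (1 - g)⁻¹ ≤ 1 + 16 * x := by
    rw [inv_le_comm₀ h1g (by linarith)]
    rw [inv_le_comm₀ (by linarith) h1g]
    rw [inv_eq_one_div, div_le_iff₀ h1g]
    nlinarith
  have h1 := Ev_rbad_le hL hB1 hcov v (ρ := τ / 2) (y := 2 * κ / τ) (by linarith) (by linarith)
    (by positivity) hsp' hg hQ hQ1 l hl ∅ (by simp)
  refine h1.trans ?_
  rw [Finset.card_empty, pow_zero, mul_one]
  have h2 : ((1 - g)⁻¹) ^ l.length ≤ 2 ^ c := by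
    refine (pow_le_pow_left₀ (by linarith) hQ2 _).trans ?_
    apply pow_le_two_pow (by positivity) hlm
    have : 3 * (16 * x * m) = 2 * (24 * (x * m)) := by ring
    rw [this]
    linarith
  have h3 : (τ / 2 : ℝ) ^ c * ((1 - g)⁻¹ ^ l.length - 1) ≤ (τ / 2) ^ c * 2 ^ c :=
    mul_le_mul_of_nonneg_left (by linarith) (by positivity)
  refine h3.trans (le_of_eq ?_)
  rw [← mul_pow]
  congr 1
  ring

/-- The hypotheses on the parameters. -/
structure Hyp (N : T9h34.G.NoiseOp X) (v : Ω → Finset X) (L c f : ℕ) (B κ τ : ℝ) : Prop where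
  hL : 0 < L
  hc : 1 ≤ c
  hB1 : 1 ≤ B
  hcov : T9h34.G.Covers N c B
  hκ : 0 ≤ κ
  hτ : 0 < τ
  hτ1 : τ ≤ 1
  hsp : Spread v (2 * c) κ
  hBκ : 16 * (B * κ) ≤ τ
  hf : 24 * (B * κ * f) ≤ τ * c

variable {L c f : ℕ} {B κ τ : ℝ} {v : Ω → Finset X}

theorem approx_gates (H : Hyp N v L c f B κ τ) (I : X → Finset (Finset X))
    (hI1 : ∀ i, {i} ∈ I i) (hI2 : ∀ i, T9h34.G.Closed N L c (I i) ∧ I i ⊆ smalls c)
    (gs : List (Gate X)) (hm : ∀ g ∈ gs, g.IsMono f) :
    ∃ 𝒜 : ℕ → ℝ → Finset (Finset X), (∀ j, Chain N L c (𝒜 j)) ∧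
      Ev v (fun Z => ind (∃ j < gs.length, ∃ θ,
        θ ≤ (runGates (chi Z) gs).getD j 0 ∧ ¬ cov (𝒜 j θ) Z))
          ≤ gs.length * τ ^ c ∧
      ∀ T : Finset X, N.iter L (fun W => ind ((∀ i, cov (I i) (T ∪ W) → i ∈ T ∪ W) ∧
        ∃ j < gs.length, ∃ θ, cov (𝒜 j θ) (T ∪ W) ∧
          ¬ θ ≤ (runGates (chi (T ∪ W)) gs).getD j 0))
          ≤ gs.length * del X L c := by
  induction gs using List.reverseRecOn with
  | nil =>
    refine ⟨fun _ _ => ∅, fun _ => ⟨fun _ _ _ => le_refl _, fun _ => closed_empty,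
      fun _ => by simp⟩, ?_, ?_⟩
    · have : (fun Z : Finset X => ind (∃ j < ([] : List (Gate X)).length, ∃ θ,
          θ ≤ (runGates (chi Z) []).getD j 0 ∧ ¬ cov (∅ : Finset (Finset X)) Z))
          = fun _ => (0 : ℝ) * 1 := by
        funext Z
        rw [ind_not (by simp)]; ring
      rw [this, Ev_const_mul]
      simp
    · intro T
      have : (fun W : Finset X => ind ((∀ i, cov (I i) (T ∪ W) → i ∈ T ∪ W) ∧
          ∃ j < ([] : List (Gate X)).length, ∃ θ,
          cov (∅ : Finset (Finset X)) (T ∪ W) ∧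
            ¬ θ ≤ (runGates (chi (T ∪ W)) []).getD j 0))
          = fun _ => (0 : ℝ) := by
        funext Z
        rw [ind_not (by simp)]
      rw [this, N.iter_const]
      simp
  | append_singleton gs g ih =>
    have hgs : ∀ g ∈ gs, g.IsMono f := fun g' hg' => hm g' (by simp [hg'])
    have hg : g.IsMono f := hm g (by simp)
    obtain ⟨𝒜, h1, h2, h3⟩ := ih hgs
    cases g with
    | other tests φ => exact absurd hg (by simp [Gate.IsMono])
    | mono args φ =>
    obtain ⟨hargs, hφ⟩ := hg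
    set F : ℝ → Finset (Finset X) := gFam c I 𝒜 gs.length args φ with hF
    have hFsub : ∀ θ, F θ ⊆ smalls c := fun θ => gFam_sub θ
    have hFanti : ∀ a b : ℝ, a ≤ b → F b ⊆ F a := fun a b hab => gFam_anti a b hab
    refine ⟨fun j => if j = gs.length then fun θ => cl N L c (F θ) else 𝒜 j, ?_, ?_, ?_⟩
    · intro j
      by_cases hj : j = gs.length
      · simp only [if_pos hj]
        exact ⟨fun a b hab => cl_mono (hFanti a b hab), fun θ => cl_closed, fun θ => cl_sub⟩
      · simp only [if_neg hj]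
        exact h1 j
    · have hpt : ∀ Z : Finset X, ind (∃ j < (gs ++ [Gate.mono args φ]).length, ∃ θ,
          θ ≤ (runGates (chi Z) (gs ++ [Gate.mono args φ])).getD j 0 ∧
            ¬ cov ((if j = gs.length then fun θ => cl N L c (F θ) else 𝒜 j) θ) Z)
          ≤ ind (∃ j < gs.length, ∃ θ, θ ≤ (runGates (chi Z) gs).getD j 0 ∧ ¬ cov (𝒜 j θ) Z)
            + ind (RBad c (args.map (sFam c I 𝒜 gs.length)) ∅ Z) := by
        intro Z
        refine le_trans (ind_mono ?_) (ind_or_le _ _)
        rintro ⟨j, hj, θ, hv, hnc⟩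
        by_cases hbad : ∃ j < gs.length, ∃ θ,
            θ ≤ (runGates (chi Z) gs).getD j 0 ∧ ¬ cov (𝒜 j θ) Z
        · exact Or.inl hbad
        · right
          push Not at hbad
          rw [runGates_append] at hv
          have hlen : (gs ++ [Gate.mono args φ]).length = gs.length + 1 := by simp
          rw [hlen] at hj
          rcases lt_or_eq_of_le (Nat.lt_succ_iff.1 hj) with hj' | hj'
          · rw [getD_append_lt (by rw [length_runGates]; exact hj')] at hv
            rw [if_neg (by omega)] at hnc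
            exact absurd (hbad j hj' θ hv) hnc
          · rw [getD_append_eq (by rw [length_runGates]; exact hj')] at hv
            rw [if_pos hj'] at hnc
            by_contra hgood
            apply hnc
            exact cov_mono (sub_cl (hFsub θ)) (le_refl _)
              (gFam_pos hI1 (length_runGates (chi Z) gs) hbad args φ θ hv hgood)
      refine le_trans (Ev_mono v hpt) ?_
      rw [Ev_add]
      have h4 := Ev_rbad_tau H.hL H.hB1 H.hcov v H.hκ H.hτ H.hτ1 H.hsp H.hBκ H.hf
        (args.map (sFam c I 𝒜 gs.length))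
        (by
          intro F' hF'
          obtain ⟨a, _, rfl⟩ := List.mem_map.1 hF'
          exact sFam_chain hI2 h1 a)
        (by rw [List.length_map]; exact hargs)
      have hlen : ((gs ++ [Gate.mono args φ]).length : ℝ) = gs.length + 1 := by simp
      rw [hlen]
      linarith
    · intro T
      have hpt : ∀ W : Finset X, ind ((∀ i, cov (I i) (T ∪ W) → i ∈ T ∪ W) ∧
          ∃ j < (gs ++ [Gate.mono args φ]).length, ∃ θ,
          cov ((if j = gs.length then fun θ => cl N L c (F θ) else 𝒜 j) θ) (T ∪ W) ∧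
          ¬ θ ≤ (runGates (chi (T ∪ W)) (gs ++ [Gate.mono args φ])).getD j 0)
          ≤ ind ((∀ i, cov (I i) (T ∪ W) → i ∈ T ∪ W) ∧
              ∃ j < gs.length, ∃ θ, cov (𝒜 j θ) (T ∪ W) ∧
              ¬ θ ≤ (runGates (chi (T ∪ W)) gs).getD j 0)
            + ind (∃ θ, cov (cl N L c (F θ)) (T ∪ W) ∧ ¬ cov (F θ) (T ∪ W)) := by
        intro W
        refine le_trans (ind_mono ?_) (ind_or_le _ _)
        rintro ⟨hin, j, hj, θ, hcv, hv⟩
        by_cases hbad : ∃ j < gs.length, ∃ θ, cov (𝒜 j θ) (T ∪ W) ∧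
            ¬ θ ≤ (runGates (chi (T ∪ W)) gs).getD j 0
        · exact Or.inl ⟨hin, hbad⟩
        · right
          have hbad' : ∀ j < gs.length, ∀ θ, cov (𝒜 j θ) (T ∪ W) →
              θ ≤ (runGates (chi (T ∪ W)) gs).getD j 0 := by
            intro j hj θ hc
            by_contra hcon
            exact hbad ⟨j, hj, θ, hc, hcon⟩
          rw [runGates_append] at hv
          have hlen : (gs ++ [Gate.mono args φ]).length = gs.length + 1 := by simp
          rw [hlen] at hj
          rcases lt_or_eq_of_le (Nat.lt_succ_iff.1 hj) with hj' | hj'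
          · rw [getD_append_lt (by rw [length_runGates]; exact hj')] at hv
            rw [if_neg (by omega)] at hcv
            exact absurd (hbad' j hj' θ hcv) hv
          · rw [getD_append_eq (by rw [length_runGates]; exact hj')] at hv
            rw [if_pos hj'] at hcv
            refine ⟨θ, hcv, ?_⟩
            intro hFθ
            exact hv (gFam_neg (length_runGates _ _) hin hbad' args φ hφ θ hFθ)
      refine le_trans (N.iter_mono L hpt) ?_
      rw [N.iter_add]
      have h4 := h3 T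
      have h5 := chain_err (N := N) (L := L) hFanti hFsub T
      have hlen : ((gs ++ [Gate.mono args φ]).length : ℝ) = gs.length + 1 := by simp
      rw [hlen]
      unfold del at h4 ⊢
      linarith

/-- **Domination lemma.** If a circuit of nondecreasing real gates of fan-in at most `f` accepts a
spread random set with some probability, then it accepts the noise with a comparable probability,
up to an error proportional to its size. -/
theorem domination (H : Hyp N v L c f B κ τ) (C : Circuit X) (hm : ∀ g ∈ C.gates, g.IsMono f) :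
    Ev v (fun Z => ind (C.eval (chi Z) = true))
      ≤ 3 * N.iter (L + 1) (fun U => ind (C.eval (chi U) = true))
        + (C.size * τ ^ c + 3 * ((C.size + Fintype.card X) * del X L c)) := by
  obtain ⟨I, hI1, hI2, hI3⟩ := exists_inputs N L H.hc
  obtain ⟨𝒜, h1, h2, h3⟩ := approx_gates H I hI1 hI2 C.gates hm
  set n := C.gates.length with hn
  set 𝒞 := sFam c I 𝒜 n C.out.1 C.out.2 with h𝒞
  have hch := sFam_chain (n := n) hI2 h1 C.out.1
  have hc3 : T9h34.G.Closed N L c 𝒞 := hch.closed _
  have hc2 : 𝒞 ⊆ smalls c := hch.small _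
  set δ := del X L c with hδ
  have hδ0 : 0 ≤ δ := del_nonneg
  have hδ1 : ((smalls (X := X) c).card : ℝ) * (1 / 2 : ℝ) ^ L ≤ δ := by
    rw [hδ]
    unfold del
    have h4 : (0 : ℝ) ≤ ((smalls (X := X) c).card : ℝ) * (1 / 2 : ℝ) ^ L := by positivity
    have h5 : (0 : ℝ) ≤ ((smalls (X := X) c).card : ℝ) := by positivity
    nlinarith
  -- positive side
  have hpos : Ev v (fun Z => ind (C.eval (chi Z) = true))
      ≤ n * τ ^ c + Ev v (fun Z => ind (cov 𝒞 Z)) := by
    have hpt : ∀ Z : Finset X, ind (C.eval (chi Z) = true)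
        ≤ ind (∃ j < C.gates.length, ∃ θ,
            θ ≤ (runGates (chi Z) C.gates).getD j 0 ∧ ¬ cov (𝒜 j θ) Z)
          + ind (cov 𝒞 Z) := by
      intro Z
      refine le_trans (ind_mono ?_) (ind_or_le _ _)
      intro hv
      by_cases hbad : ∃ j < C.gates.length, ∃ θ,
          θ ≤ (runGates (chi Z) C.gates).getD j 0 ∧ ¬ cov (𝒜 j θ) Z
      · exact Or.inl hbad
      · right
        push Not at hbad
        unfold Circuit.eval at hv
        rw [test_eval] at hv
        exact sFam_pos hI1 (length_runGates _ _) hbad C.out.1 _ hv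
    refine le_trans (Ev_mono v hpt) ?_
    rw [Ev_add]
    linarith
  -- negative side
  have hneg : ∀ z : Finset X, ind (cov 𝒞 z) ≤
      N.iter L (fun W => ind (C.eval (chi (z ∪ W)) = true)) + (n + Fintype.card X) * δ := by
    intro z
    by_cases hz : cov 𝒞 z
    · rw [ind_of hz]
      have hpt : ∀ W : Finset X, (1 : ℝ) ≤ ind (C.eval (chi (z ∪ W)) = true)
          + (ind ((∀ i, cov (I i) (z ∪ W) → i ∈ z ∪ W) ∧
              ∃ j < C.gates.length, ∃ θ, cov (𝒜 j θ) (z ∪ W) ∧
              ¬ θ ≤ (runGates (chi (z ∪ W)) C.gates).getD j 0)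
            + ind (∃ i, cov (I i) (z ∪ W) ∧ i ∉ z ∪ W)) := by
        intro W
        have p1 := ind_nonneg (C.eval (chi (z ∪ W)) = true)
        have p2 := ind_nonneg ((∀ i, cov (I i) (z ∪ W) → i ∈ z ∪ W) ∧
              ∃ j < C.gates.length, ∃ θ, cov (𝒜 j θ) (z ∪ W) ∧
              ¬ θ ≤ (runGates (chi (z ∪ W)) C.gates).getD j 0)
        have p3 := ind_nonneg (∃ i, cov (I i) (z ∪ W) ∧ i ∉ z ∪ W)
        by_cases hin : ∃ i, cov (I i) (z ∪ W) ∧ i ∉ z ∪ W
        · rw [ind_of hin]
          linarith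
        have hin' : ∀ i, cov (I i) (z ∪ W) → i ∈ z ∪ W := by
          intro i hi
          by_contra hc
          exact hin ⟨i, hi, hc⟩
        by_cases hbad : ∃ j < C.gates.length, ∃ θ, cov (𝒜 j θ) (z ∪ W) ∧
              ¬ θ ≤ (runGates (chi (z ∪ W)) C.gates).getD j 0
        · rw [ind_of (⟨hin', hbad⟩ : (∀ i, cov (I i) (z ∪ W) → i ∈ z ∪ W) ∧
              ∃ j < C.gates.length, ∃ θ, cov (𝒜 j θ) (z ∪ W) ∧
              ¬ θ ≤ (runGates (chi (z ∪ W)) C.gates).getD j 0)]
          linarith
        · have hbad' : ∀ j < C.gates.length, ∀ θ, cov (𝒜 j θ) (z ∪ W) →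
                θ ≤ (runGates (chi (z ∪ W)) C.gates).getD j 0 := by
            intro j hj θ hc
            by_contra hcon
            exact hbad ⟨j, hj, θ, hc, hcon⟩
          have hv : C.eval (chi (z ∪ W)) = true := by
            unfold Circuit.eval
            rw [test_eval]
            exact sFam_neg (length_runGates _ _) hin' hbad' C.out.1 _
              (cov_mono (le_refl _) Finset.subset_union_left hz)
          rw [ind_of hv]
          linarith
      have h4 := N.iter_mono L hpt
      rw [N.iter_const, N.iter_add, N.iter_add] at h4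
      have h5 := h3 z
      have h6 := hI3 z
      rw [← hn] at h4
      have h7 : ((n : ℝ) + Fintype.card X) * δ = n * δ + Fintype.card X * δ := by ring
      have h8 := mul_le_mul_of_nonneg_left hδ1 (Nat.cast_nonneg (α := ℝ) (Fintype.card X))
      rw [h7]
      linarith
    · rw [ind_not hz]
      have : 0 ≤ N.iter L (fun W => ind (C.eval (chi (z ∪ W)) = true)) :=
        N.iter_nonneg L (fun W => ind_nonneg _)
      positivity
  have hneg' : N.E (fun z => ind (cov 𝒞 z))
      ≤ N.iter (L + 1) (fun U => ind (C.eval (chi U) = true)) + (n + Fintype.card X) * δ := by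
    refine le_trans (N.mono hneg) ?_
    rw [N.add', N.const']
    simp only [T9h34.G.NoiseOp.iter]
    linarith
  have hsp' : Spread v c κ := fun T hT => H.hsp T (by omega)
  have hBκ' : B * κ ≤ 1 / 4 := by
    have := H.hBκ
    have := H.hτ1
    linarith
  have hcmp := T9h34.G.Ev_cov_le H.hL H.hB1 H.hcov hc3 hc2 v H.hκ hsp' hBκ'
  have hsize : (C.size : ℝ) = n := by rw [hn]; rfl
  rw [hsize]
  linarith

end Pool.Agent.T9h35.TX
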