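import Pool.Agent.T9h34.G.Sparse

/-!
Sparse systems of linear forms over `ZMod 2` with four variables in each form, all of whose small
subsystems are independent.
-/

set_option autoImplicit false

namespace Pool.Agent.T9h35.TX

open Finset
open Pool.Agent.T9h34.G (rowVec evens evens_bound)

variable {R : Type} [Fintype R] [DecidableEq R] {m : ℕ}

theorem bad_card4 (hm0 : 0 < m) (Q : Finset R) :
    ((univ : Finset (R → Fin 4 → Fin m)).filter (fun S => ∑ q ∈ Q, rowVec S q = 0)).card
      * m ^ (2 * Q.card) ≤ (4 * Q.card) ^ (2 * Q.card) * (m ^ 4) ^ Fintype.card R := by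
  classical
  set N := Q.card * 4 with hN
  set bad := (univ : Finset (R → Fin 4 → Fin m)).filter (fun S => ∑ q ∈ Q, rowVec S q = 0)
    with hbad
  have hcardE : Fintype.card (Fin N) = Fintype.card (Q × Fin 4) := by
    rw [Fintype.card_fin, Fintype.card_prod, Fintype.card_fin, Fintype.card_coe]
  obtain ⟨e⟩ := Fintype.card_eq.1 hcardE
  have h1 : bad.card ≤ (evens m N ×ˢ (univ : Finset ({q // q ∉ Q} → Fin 4 → Fin m))).card := by
    apply Finset.card_le_card_of_injOn
      (fun S => ((fun x => S (e x).1.1 (e x).2), fun q => S q.1))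
    · intro S hS
      rw [Finset.mem_coe, hbad, Finset.mem_filter] at hS
      rw [Finset.mem_coe, Finset.mem_product]
      refine ⟨?_, Finset.mem_univ _⟩
      unfold evens
      rw [Finset.mem_filter]
      refine ⟨Finset.mem_univ _, ?_⟩
      have h2 : ∑ x : Fin N, (Pi.single (S (e x).1.1 (e x).2) (1 : ZMod 2) : Fin m → ZMod 2)
          = ∑ p : Q × Fin 4, Pi.single (S p.1.1 p.2) 1 :=
        Equiv.sum_comp e (fun p : Q × Fin 4 =>
          (Pi.single (S p.1.1 p.2) (1 : ZMod 2) : Fin m → ZMod 2))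
      simp only
      rw [h2, Fintype.sum_prod_type]
      have h3 := hS.2
      unfold rowVec at h3
      rw [← Finset.sum_coe_sort Q (fun q => ∑ l, (Pi.single (S q l) (1 : ZMod 2) :
        Fin m → ZMod 2))] at h3
      exact h3
    · intro S _ S' _ h
      simp only [Prod.mk.injEq] at h
      funext q
      by_cases hq : q ∈ Q
      · funext l
        have h2 := congrFun h.1 (e.symm (⟨q, hq⟩, l))
        simpa using h2
      · exact congrFun h.2 ⟨q, hq⟩
  rw [Finset.card_product, Finset.card_univ, Fintype.card_fun, Fintype.card_fun, Fintype.card_fin,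
    Fintype.card_fin, Fintype.card_subtype_compl (fun q => q ∈ Q), Fintype.card_coe] at h1
  have hQR : Q.card ≤ Fintype.card R := Finset.card_le_univ Q
  have h2 : (bad.card * m ^ (2 * Q.card)) ^ 2 ≤
      ((4 * Q.card) ^ (2 * Q.card) * (m ^ 4) ^ Fintype.card R) ^ 2 := by
    calc (bad.card * m ^ (2 * Q.card)) ^ 2
        ≤ ((evens m N).card * (m ^ 4) ^ (Fintype.card R - Q.card) * m ^ (2 * Q.card)) ^ 2 :=
          Nat.pow_le_pow_left (Nat.mul_le_mul_right _ h1) 2
      _ = (evens m N).card ^ 2 * (m ^ (2 * Q.card)) ^ 2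
            * ((m ^ 4) ^ (Fintype.card R - Q.card)) ^ 2 := by ring
      _ ≤ (N * m) ^ N * (m ^ (2 * Q.card)) ^ 2 * ((m ^ 4) ^ (Fintype.card R - Q.card)) ^ 2 := by
          apply Nat.mul_le_mul_right
          apply Nat.mul_le_mul_right
          exact (evens_bound m N).1
      _ = ((4 * Q.card) ^ (2 * Q.card)) ^ 2 *
            ((m ^ 4) ^ Q.card * (m ^ 4) ^ (Fintype.card R - Q.card)) ^ 2 := by
          have e1 : (N * m) ^ N = ((4 * Q.card) ^ (2 * Q.card)) ^ 2 * (m ^ (2 * Q.card)) ^ 2 := by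
            rw [← mul_pow, ← mul_pow, ← pow_mul]
            congr 1
            · rw [hN]; ring
            · rw [hN]; ring
          have e2 : (m ^ 4) ^ Q.card = m ^ (2 * Q.card) * m ^ (2 * Q.card) := by
            rw [← pow_mul, ← pow_add]; congr 1; ring
          rw [e1, e2]
          ring
      _ = ((4 * Q.card) ^ (2 * Q.card) * (m ^ 4) ^ Fintype.card R) ^ 2 := by
          have e3 : (m ^ 4) ^ Q.card * (m ^ 4) ^ (Fintype.card R - Q.card) =
              (m ^ 4) ^ Fintype.card R := by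
            rw [← pow_add, Nat.add_sub_cancel' hQR]
          rw [e3, mul_pow _ ((m ^ 4) ^ Fintype.card R)]
  exact (Nat.pow_le_pow_iff_left (by norm_num)).1 h2

theorem pow_self_le (u : ℕ) : (u : ℝ) ^ u ≤ 3 ^ u * (u.factorial : ℝ) := by
  have h1 := Real.pow_div_factorial_le_exp (u : ℝ) (Nat.cast_nonneg u) u
  have h2 : Real.exp (u : ℝ) ≤ 3 ^ u := by
    rw [← Real.exp_one_pow]
    apply pow_le_pow_left₀ (Real.exp_pos 1).le
    have := Real.exp_one_lt_d9
    linarith
  have h3 : (0 : ℝ) < u.factorial := by exact_mod_cast Nat.factorial_pos u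
  rw [div_le_iff₀ h3] at h1
  refine h1.trans ?_
  exact mul_le_mul_of_nonneg_right h2 h3.le

theorem geo4 (n : ℕ) : ∑ u ∈ Finset.range n, (1 / 4 : ℝ) ^ (u + 1) ≤ 1 / 3 := by
  have h : ∑ u ∈ Finset.range n, (1 / 4 : ℝ) ^ (u + 1) = (1 - (1 / 4) ^ n) / 3 := by
    induction n with
    | zero => simp
    | succ n ih =>
      rw [Finset.sum_range_succ, ih]
      ring
  rw [h]
  have : (0 : ℝ) ≤ (1 / 4 : ℝ) ^ n := by positivity
  linarith

theorem exists_sparse4 (pm : ℕ) (hm0 : 0 < m)
    (hm : 192 * (Fintype.card R * pm) ≤ m ^ 2) :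
    ∃ S : R → Fin 4 → Fin m, ∀ Q : Finset R, Q.Nonempty → Q.card ≤ pm →
      ∑ q ∈ Q, rowVec S q ≠ 0 := by
  classical
  by_contra hcon
  push Not at hcon
  set tot := (m ^ 4) ^ Fintype.card R with htot
  have htot0 : 0 < tot := by positivity
  have htotc : (univ : Finset (R → Fin 4 → Fin m)).card = tot := by
    rw [Finset.card_univ, Fintype.card_fun, Fintype.card_fun, Fintype.card_fin, Fintype.card_fin]
  set 𝒬 := (univ : Finset (Finset R)).filter (fun Q => Q.Nonempty ∧ Q.card ≤ pm) with h𝒬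
  have hsub : (univ : Finset (R → Fin 4 → Fin m)) ⊆
      𝒬.biUnion (fun Q => univ.filter (fun S => ∑ q ∈ Q, rowVec S q = 0)) := by
    intro S _
    obtain ⟨Q, h1, h2, h3⟩ := hcon S
    rw [Finset.mem_biUnion]
    refine ⟨Q, ?_, ?_⟩
    · rw [h𝒬, Finset.mem_filter]
      exact ⟨Finset.mem_univ _, h1, h2⟩
    · rw [Finset.mem_filter]
      exact ⟨Finset.mem_univ _, h3⟩
  have h1 := (Finset.card_le_card hsub).trans Finset.card_biUnion_le
  rw [htotc] at h1
  have hmR : (0 : ℝ) < m := by exact_mod_cast hm0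
  set f : ℕ → ℝ := fun u => if 1 ≤ u ∧ u ≤ pm then (tot : ℝ) * ((4 * u) ^ 2 / m ^ 2) ^ u else 0
    with hf
  have hf0 : ∀ u, 0 ≤ f u := by
    intro u
    rw [hf]
    simp only
    split_ifs
    · positivity
    · exact le_refl _
  have h2 : ∀ Q ∈ 𝒬, (((univ : Finset (R → Fin 4 → Fin m)).filter
      (fun S => ∑ q ∈ Q, rowVec S q = 0)).card : ℝ) ≤ f Q.card := by
    intro Q hQ
    rw [h𝒬, Finset.mem_filter] at hQ
    have h3 := bad_card4 hm0 Q
    rw [← htot] at h3
    have h4 : ((((univ : Finset (R → Fin 4 → Fin m)).filter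
      (fun S => ∑ q ∈ Q, rowVec S q = 0)).card * m ^ (2 * Q.card) : ℕ) : ℝ) ≤
        (((4 * Q.card) ^ (2 * Q.card) * tot : ℕ) : ℝ) := by
      exact_mod_cast h3
    push_cast at h4
    rw [hf]
    simp only
    rw [if_pos ⟨Finset.card_pos.2 hQ.2.1, hQ.2.2⟩, div_pow, ← pow_mul, ← pow_mul, ← mul_div_assoc,
      le_div_iff₀ (by positivity)]
    linarith
  have h3 : (tot : ℝ) ≤ ∑ Q ∈ 𝒬, f Q.card := by
    refine le_trans ?_ (Finset.sum_le_sum h2)
    exact_mod_cast h1
  have h4 : ∑ Q ∈ 𝒬, f Q.card ≤ ∑ u ∈ Finset.range (Fintype.card R + 1),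
      ((Fintype.card R).choose u) • f u := by
    have h5 := Finset.sum_powerset_apply_card f (x := (univ : Finset R))
    rw [Finset.card_univ, Finset.powerset_univ] at h5
    rw [← h5]
    exact Finset.sum_le_sum_of_subset_of_nonneg (Finset.filter_subset _ _) (fun Q _ _ => hf0 _)
  have hterm : ∀ u, 1 ≤ u → ((Fintype.card R).choose u) • f u ≤ tot * (1 / 4 : ℝ) ^ u := by
    intro u hu
    rw [nsmul_eq_mul, hf]
    simp only
    split_ifs with hc
    · have h5 : ((Fintype.card R).choose u : ℝ) ≤ (Fintype.card R : ℝ) ^ u / (u.factorial : ℝ) :=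
        Nat.choose_le_pow_div u (Fintype.card R)
      have h6 := pow_self_le u
      have h7 : (0 : ℝ) < u.factorial := by exact_mod_cast Nat.factorial_pos u
      have hu0 : (0 : ℝ) ≤ u := Nat.cast_nonneg u
      have hR0 : (0 : ℝ) ≤ Fintype.card R := Nat.cast_nonneg _
      have h8 : (16 * (Fintype.card R : ℝ) * u * 3 / m ^ 2) ≤ 1 / 4 := by
        rw [div_le_div_iff₀ (by positivity) (by norm_num)]
        have h9 : ((192 * (Fintype.card R * pm) : ℕ) : ℝ) ≤ ((m ^ 2 : ℕ) : ℝ) := by
          exact_mod_cast hm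
        push_cast at h9
        have h10 : (u : ℝ) ≤ pm := by exact_mod_cast hc.2
        have h11 : (Fintype.card R : ℝ) * u ≤ Fintype.card R * pm :=
          mul_le_mul_of_nonneg_left h10 hR0
        linarith
      have h9 : ((Fintype.card R).choose u : ℝ) * (((4 * (u : ℝ)) ^ 2 / m ^ 2) ^ u) ≤
          (1 / 4 : ℝ) ^ u := by
        have e1 : ((4 * (u : ℝ)) ^ 2 / m ^ 2) ^ u = (16 * u / m ^ 2) ^ u * (u : ℝ) ^ u := by
          rw [← mul_pow]; congr 1; ring
        calc ((Fintype.card R).choose u : ℝ) * (((4 * (u : ℝ)) ^ 2 / m ^ 2) ^ u)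
            ≤ ((Fintype.card R : ℝ) ^ u / (u.factorial : ℝ)) * ((16 * u / m ^ 2) ^ u *
              (3 ^ u * (u.factorial : ℝ))) := by
              rw [e1]
              apply mul_le_mul h5 _ (by positivity) (by positivity)
              exact mul_le_mul_of_nonneg_left h6 (by positivity)
          _ = (16 * (Fintype.card R : ℝ) * u * 3 / m ^ 2) ^ u := by
              have e2 : (16 * (Fintype.card R : ℝ) * u * 3 / m ^ 2) =
                  (Fintype.card R : ℝ) * (16 * u / m ^ 2) * 3 := by ring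
              rw [e2, mul_pow, mul_pow]
              field_simp
          _ ≤ (1 / 4) ^ u := pow_le_pow_left₀ (by positivity) h8 u
      have h10 : (0 : ℝ) ≤ (tot : ℝ) := Nat.cast_nonneg _
      have h12 := mul_le_mul_of_nonneg_left h9 h10
      linarith
    · rw [mul_zero]; positivity
  have h5 : ∑ u ∈ Finset.range (Fintype.card R + 1), ((Fintype.card R).choose u) • f u ≤
      tot * (1 / 3 : ℝ) := by
    rw [Finset.sum_range_succ']
    have h6 : ((Fintype.card R).choose 0) • f 0 = 0 := by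
      rw [hf]; simp
    rw [h6, add_zero]
    calc ∑ u ∈ Finset.range (Fintype.card R), ((Fintype.card R).choose (u + 1)) • f (u + 1)
        ≤ ∑ u ∈ Finset.range (Fintype.card R), (tot : ℝ) * (1 / 4 : ℝ) ^ (u + 1) :=
          Finset.sum_le_sum fun u _ => hterm (u + 1) (by omega)
      _ = tot * ∑ u ∈ Finset.range (Fintype.card R), (1 / 4 : ℝ) ^ (u + 1) := by
          rw [Finset.mul_sum]
      _ ≤ tot * (1 / 3) := mul_le_mul_of_nonneg_left (geo4 _) (by positivity)
  have htotR : (0 : ℝ) < tot := by exact_mod_cast htot0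
  linarith

end Pool.Agent.T9h35.TX
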