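import Pool.Agent.T9h35.TX.Approx
import Pool.Agent.T9h35.TX.Sparse4
import Pool.Agent.T9h34.S.BlockAvg

set_option autoImplicit false

/-!
Blocks whose symbols consist of letters of `β` bits, on which circuits of nondecreasing real gates
cannot distinguish random codewords from noise.
-/

namespace Pool.Agent.T9h35.TX

open Finset Pool.Agent.T9h34.G
open Pool.Agent.T9h34 (ind ind_of ind_not ind_nonneg ind_le_one ind_mono ind_or_le
  smalls mem_smalls card_smalls_le Ev Spread chi pull Ground wordSet card_wordSet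
  spread_code)
open Pool.Agent.T9h35.RW (del del_nonneg)

/-- The error term of the domination lemma for circuits of size at most `s`. -/
noncomputable def err (X : Type*) [Fintype X] [DecidableEq X] (L c s : ℕ) (τ : ℝ) : ℝ :=
  s * τ ^ c + 3 * ((s + Fintype.card X) * del X L c)

theorem err_mono {X : Type*} [Fintype X] [DecidableEq X] {L c s s' : ℕ} {τ : ℝ} (hτ : 0 ≤ τ)
    (h : s ≤ s') : err X L c s τ ≤ err X L c s' τ := by
  unfold err
  have h1 : (s : ℝ) ≤ s' := by exact_mod_cast h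
  have h2 : (0 : ℝ) ≤ τ ^ c := by positivity
  have h3 : 0 ≤ del X L c := del_nonneg
  have h4 := mul_le_mul_of_nonneg_right h1 h2
  have h5 := mul_le_mul_of_nonneg_right (add_le_add_left h1 (Fintype.card X : ℝ)) h3
  linarith

/-- The error term is negligible. -/
theorem terr_small {X : Type*} [Fintype X] [DecidableEq X] {lam l c s β : ℕ}
    (hlamβ : β ≤ lam) (hc : 3 * l < c * β) (hl1 : 2 ≤ l) (hs : s < 2 ^ l)
    (hXcard : Fintype.card X + 1 ≤ 2 ^ lam) :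
    err X (5 * (lam * c)) c s ((1 / 2 : ℝ) ^ β) ≤ 2 * (1 / 2 : ℝ) ^ (2 * l) := by
  set L := 5 * (lam * c) with hL
  have hc1 : 1 ≤ c := by
    rcases Nat.eq_zero_or_pos c with h | h
    · rw [h] at hc; omega
    · exact h
  have hll : 3 * l < lam * c := by
    have : c * β ≤ lam * c := by rw [mul_comm]; exact Nat.mul_le_mul_right _ hlamβ
    omega
  have hll2 : lam ≤ lam * c := Nat.le_mul_of_pos_right _ hc1
  have hsm : ((smalls (X := X) c).card : ℝ) ≤ 2 ^ (lam * c) := by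
    have h1 := card_smalls_le (X := X) c
    have h2 : (Fintype.card X + 1) ^ c ≤ (2 ^ lam) ^ c := Nat.pow_le_pow_left hXcard _
    rw [← pow_mul] at h2
    exact_mod_cast le_trans h1 h2
  have hP1 : (1 : ℝ) ≤ 2 ^ (lam * c) := one_le_pow₀ (by norm_num)
  have hdel : del X L c ≤ 2 ^ (2 * (lam * c) + 1) * (1 / 2 : ℝ) ^ L := by
    unfold del
    have hp1 : (0 : ℝ) ≤ (1 / 2 : ℝ) ^ L := pow_nonneg (by norm_num) _
    have e1 : (2 : ℝ) ^ (2 * (lam * c) + 1) = (2 * 2 ^ (lam * c)) * 2 ^ (lam * c) := by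
      have : 2 * (lam * c) + 1 = lam * c + lam * c + 1 := by ring
      rw [this, pow_succ, pow_add]
      ring
    rw [e1, mul_assoc (2 * (2 : ℝ) ^ (lam * c))]
    apply mul_le_mul (by linarith) _ (by positivity) (by positivity)
    exact mul_le_mul_of_nonneg_right hsm hp1
  unfold err
  have hsR : (s : ℝ) ≤ 2 ^ l := by exact_mod_cast hs.le
  have hs0 : (0 : ℝ) ≤ s := Nat.cast_nonneg s
  have key : ∀ i j : ℕ, i + 2 * l ≤ j → (2 : ℝ) ^ i * (1 / 2 : ℝ) ^ j ≤ (1 / 2) ^ (2 * l) := by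
    intro i j hij
    obtain ⟨d, rfl⟩ := Nat.exists_eq_add_of_le hij
    have h1 : (1 / 2 : ℝ) ^ (i + 2 * l + d) = (1 / 2) ^ i * ((1 / 2) ^ (2 * l) * (1 / 2) ^ d) := by
      rw [← pow_add, ← pow_add]; congr 1; ring
    have h2 : (2 : ℝ) ^ i * (1 / 2) ^ i = 1 := by rw [← mul_pow]; norm_num
    have h3 : (1 / 2 : ℝ) ^ d ≤ 1 := pow_le_one₀ (by norm_num) (by norm_num)
    have h4 : (0 : ℝ) ≤ (1 / 2 : ℝ) ^ (2 * l) := by positivity
    calc (2 : ℝ) ^ i * (1 / 2 : ℝ) ^ (i + 2 * l + d)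
        = ((2 : ℝ) ^ i * (1 / 2) ^ i) * ((1 / 2) ^ (2 * l) * (1 / 2) ^ d) := by rw [h1]; ring
      _ = (1 / 2) ^ (2 * l) * (1 / 2) ^ d := by rw [h2, one_mul]
      _ ≤ (1 / 2) ^ (2 * l) * 1 := mul_le_mul_of_nonneg_left h3 h4
      _ = _ := mul_one _
  have h1 : (s : ℝ) * ((1 / 2 : ℝ) ^ β) ^ c ≤ (1 / 2) ^ (2 * l) := by
    rw [← pow_mul]
    refine le_trans ?_ (key l (β * c) (by rw [mul_comm β c]; omega))
    exact mul_le_mul_of_nonneg_right hsR (by positivity)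
  have hX : ((Fintype.card X : ℕ) : ℝ) ≤ 2 ^ (lam * c) := by
    have h2 : Fintype.card X ≤ 2 ^ (lam * c) :=
      le_trans (by omega) (hXcard.trans (Nat.pow_le_pow_right (by norm_num) hll2))
    exact_mod_cast h2
  have hsX : (s : ℝ) + (Fintype.card X : ℕ) ≤ 2 ^ (lam * c + 1) := by
    have h2 : (2 : ℝ) ^ l ≤ 2 ^ (lam * c) := pow_le_pow_right₀ (by norm_num) (by omega)
    rw [pow_succ]
    linarith
  have h2 : 3 * (((s : ℝ) + Fintype.card X) * del X L c) ≤ (1 / 2) ^ (2 * l) := by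
    have hp1 : (0 : ℝ) ≤ (1 / 2 : ℝ) ^ L := pow_nonneg (by norm_num) _
    refine le_trans ?_ (key (2 + (lam * c + 1) + (2 * (lam * c) + 1)) L (by omega))
    calc 3 * (((s : ℝ) + Fintype.card X) * del X L c)
        ≤ 4 * (2 ^ (lam * c + 1) * (2 ^ (2 * (lam * c) + 1) * (1 / 2 : ℝ) ^ L)) := by
          apply mul_le_mul (by norm_num) _ _ (by norm_num)
          · exact mul_le_mul hsX hdel del_nonneg (pow_nonneg (by norm_num) _)
          · exact mul_nonneg (by positivity) del_nonneg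
      _ = 2 ^ (2 + (lam * c + 1) + (2 * (lam * c) + 1)) * (1 / 2 : ℝ) ^ L := by
          rw [pow_add (2 : ℝ) (2 + (lam * c + 1)), pow_add (2 : ℝ) 2]; norm_num; ring
  linarith

theorem succ_le_two_pow (n : ℕ) : n + 1 ≤ 2 ^ n := Nat.lt_two_pow_self

/-- The block. -/
theorem tblock {l f w y β c J lam : ℕ} (hl : 100 ≤ l) (hβ : 1 ≤ β) (hw : w = 2 * l + f + 2)
    (hy : y = Nat.log 2 w) (hc : c = 3 * l / β + 1) (hJ : J = y + 2)
    (hlam : lam = 16 * (y + β)) :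
    ∃ (a r m : ℕ) (S : Row a (r * β) → Fin 4 → Fin m) (N : NoiseOp (Ground a (r * β)))
      (B κ : ℝ),
      1 ≤ a ∧ 1 ≤ r ∧ a ≤ 1601 * (c * r ^ 2) ∧ r * β ≤ 9 * (y + β) ∧
      2 ^ (2 * (r * β)) ≤ 4608 * (J ^ 2 * lam * (c + f)) * 2 ^ (4 * β) ∧
      Fintype.card (Ground a (r * β)) + 1 ≤ 2 ^ lam ∧
      Hyp N (wordSet (sparseCode S)) (5 * (lam * c)) c f B κ ((1 / 2 : ℝ) ^ β) ∧
      N.iter (5 * (lam * c) + 1) (fun U => ind (∃ s, wordSet (sparseCode S) s ⊆ U)) ≤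
        (1 / 2 : ℝ) ^ (2 * l) := by
  have hw1 : 1 ≤ w := by omega
  have hwy : w < 2 ^ (y + 1) := by rw [hy]; exact Nat.lt_pow_succ_log_self (by norm_num) w
  have hy7 : 7 ≤ y := by
    rw [hy]
    have h1 : Nat.log 2 (2 ^ 7) ≤ Nat.log 2 w := Nat.log_mono_right (by omega)
    rwa [Nat.log_pow (by norm_num)] at h1
  have hcβ : 3 * l < c * β := by
    rw [hc]
    have := Nat.lt_mul_div_succ (3 * l) hβ
    rwa [mul_comm β] at this
  have hc1 : 1 ≤ c := by rw [hc]; exact Nat.le_add_left 1 _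
  have hc3 : c ≤ 3 * l + 1 := by
    rw [hc]
    have := Nat.div_le_self (3 * l) β
    omega
  have hcf : c + f ≤ 2 * w := by omega
  have hJ1 : 1 ≤ J := by omega
  have hlam1 : 1 ≤ lam := by omega
  have hcJ : c < 2 ^ J := by
    have h2 : 2 ^ J = 2 * 2 ^ (y + 1) := by
      rw [hJ, show y + 2 = (y + 1) + 1 by ring, pow_succ]; ring
    omega
  -- the number of letters
  obtain ⟨W, hW⟩ : ∃ W, W = 4608 * (J ^ 2 * lam * (c + f)) := ⟨_, rfl⟩
  have hW1 : 2 ≤ W := by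
    have : 1 ≤ J ^ 2 * lam * (c + f) := Nat.one_le_iff_ne_zero.2 (by positivity)
    omega
  obtain ⟨r, hr2, hr3, hr4⟩ : ∃ r, 2 ≤ r ∧ W * 2 ^ (2 * β) ≤ 2 ^ (2 * (r * β)) ∧
      2 ^ (2 * (r * β)) ≤ W * 2 ^ (4 * β) := by
    have hex : ∃ r, W ≤ 2 ^ (2 * (r * β)) := by
      refine ⟨W, (Nat.lt_two_pow_self).le.trans (Nat.pow_le_pow_right (by norm_num) ?_)⟩
      have : W * 1 ≤ W * β := Nat.mul_le_mul_left _ hβ
      omega
    have h1 := Nat.find_spec hex
    have h0 : Nat.find hex ≠ 0 := by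
      intro h0
      rw [h0] at h1
      simp only [zero_mul, mul_zero, pow_zero] at h1
      omega
    have h2 := Nat.find_min hex (m := Nat.find hex - 1) (by omega)
    push Not at h2
    obtain ⟨r1, hr1⟩ : ∃ r1, Nat.find hex = r1 + 1 := ⟨Nat.find hex - 1, by omega⟩
    rw [hr1] at h1 h2
    rw [Nat.add_sub_cancel] at h2
    refine ⟨r1 + 2, by omega, ?_, ?_⟩
    · calc W * 2 ^ (2 * β) ≤ 2 ^ (2 * ((r1 + 1) * β)) * 2 ^ (2 * β) :=
            Nat.mul_le_mul_right _ h1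
        _ = 2 ^ (2 * ((r1 + 2) * β)) := by rw [← pow_add]; congr 1; ring
    · calc 2 ^ (2 * ((r1 + 2) * β)) = 2 ^ (2 * (r1 * β)) * 2 ^ (4 * β) := by
            rw [← pow_add]; congr 1; ring
        _ ≤ W * 2 ^ (4 * β) := Nat.mul_le_mul_right _ h2.le
  have hr4' : 2 ^ (2 * (r * β)) ≤ 4608 * (J ^ 2 * lam * (c + f)) * 2 ^ (4 * β) := by
    rw [← hW]; exact hr4
  -- bounds in powers of two
  have hJp : J ^ 2 ≤ 2 ^ (2 * y + 2) := by
    have h1 : J ≤ 2 ^ (y + 1) := by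
      rw [hJ]; exact succ_le_two_pow (y + 1)
    calc J ^ 2 ≤ (2 ^ (y + 1)) ^ 2 := Nat.pow_le_pow_left h1 2
      _ = 2 ^ (2 * y + 2) := by rw [← pow_mul]; congr 1; ring
  have hyβ : y + β ≤ 2 ^ (y + β) := (Nat.lt_two_pow_self).le
  have hlamp : lam ≤ 2 ^ (y + β + 4) := by
    rw [hlam, pow_add]
    calc 16 * (y + β) ≤ 16 * 2 ^ (y + β) := Nat.mul_le_mul_left _ hyβ
      _ = 2 ^ (y + β) * 2 ^ 4 := by ring
  have hwp : w ≤ 2 ^ (y + 1) := hwy.le
  have hWp : W ≤ 2 ^ (4 * y + β + 21) := by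
    calc W ≤ 2 ^ 13 * (2 ^ (2 * y + 2) * 2 ^ (y + β + 4) * (2 * 2 ^ (y + 1))) := by
          rw [hW]
          apply Nat.mul_le_mul (by norm_num)
          apply Nat.mul_le_mul (Nat.mul_le_mul hJp hlamp)
          exact hcf.trans (Nat.mul_le_mul_left _ hwp)
      _ = 2 ^ (4 * y + β + 21) := by
          rw [← pow_add, ← pow_succ', ← pow_add, ← pow_add]; congr 1; ring
  have hrβ : r * β ≤ 9 * (y + β) := by
    by_contra hcon
    push Not at hcon
    have h1 : 2 ^ (2 * (r * β)) ≤ 2 ^ (4 * y + β + 21 + 4 * β) := by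
      calc 2 ^ (2 * (r * β)) ≤ W * 2 ^ (4 * β) := hr4
        _ ≤ 2 ^ (4 * y + β + 21) * 2 ^ (4 * β) := Nat.mul_le_mul_right _ hWp
        _ = 2 ^ (4 * y + β + 21 + 4 * β) := by rw [← pow_add]
    have h2 := (Nat.pow_le_pow_iff_right (by norm_num : 1 < 2)).1 h1
    omega
  have hr1 : r ≤ 2 ^ (y + β + 4) := by
    have h1 : r * 1 ≤ r * β := Nat.mul_le_mul_left _ hβ
    have h2 : 2 ^ (y + β + 4) = 16 * 2 ^ (y + β) := by rw [pow_add]; ring
    omega
  obtain ⟨m1, hm1⟩ : ∃ m1, m1 = 1600 * (c * r ^ 2) := ⟨_, rfl⟩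
  obtain ⟨m, hm⟩ : ∃ m, m = β * m1 := ⟨_, rfl⟩
  obtain ⟨a, ha⟩ : ∃ a, a = m1 + c := ⟨_, rfl⟩
  have hcr : c ≤ c * r ^ 2 := Nat.le_mul_of_pos_right _ (by positivity)
  have ha1601 : a ≤ 1601 * (c * r ^ 2) := by omega
  have hm10 : 0 < m1 := by omega
  have hm0 : 0 < m := by rw [hm]; exact Nat.mul_pos hβ hm10
  have ha0 : 1 ≤ a := by omega
  have hXcard : Fintype.card (Ground a (r * β)) + 1 ≤ 2 ^ lam := by
    have h1 : Fintype.card (Ground a (r * β)) = a * 2 ^ (2 * (r * β)) := by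
      simp [Ground, Pool.Agent.T9h34.Sym, ZMod.card]
    rw [h1]
    have hcp : c ≤ 2 ^ (y + 2) := by
      have := hcJ.le
      rwa [hJ] at this
    have h3 : a ≤ 2 ^ 11 * (2 ^ (y + 2) * (2 ^ (y + β + 4)) ^ 2) := by
      refine ha1601.trans ?_
      apply Nat.mul_le_mul (by norm_num)
      exact Nat.mul_le_mul hcp (Nat.pow_le_pow_left hr1 2)
    have h2 : a * 2 ^ (2 * (r * β)) ≤ 2 ^ (7 * (y + β) + 42) := by
      calc a * 2 ^ (2 * (r * β)) ≤ (2 ^ 11 * (2 ^ (y + 2) * (2 ^ (y + β + 4)) ^ 2)) *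
            (2 ^ (4 * y + β + 21) * 2 ^ (4 * β)) :=
            Nat.mul_le_mul h3 (hr4.trans (Nat.mul_le_mul_right _ hWp))
        _ = 2 ^ (11 + ((y + 2) + (y + β + 4) * 2) + ((4 * y + β + 21) + 4 * β)) := by
            rw [← pow_mul, ← pow_add, ← pow_add, ← pow_add, ← pow_add]
        _ ≤ 2 ^ (7 * (y + β) + 42) := Nat.pow_le_pow_right (by norm_num) (by omega)
    have h4 : 2 ^ (7 * (y + β) + 42) + 1 ≤ 2 ^ (7 * (y + β) + 43) := by
      have : 1 ≤ 2 ^ (7 * (y + β) + 42) := Nat.one_le_two_pow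
      rw [pow_succ 2 (7 * (y + β) + 42)]
      omega
    refine (Nat.add_le_add_right h2 1).trans (h4.trans ?_)
    exact Nat.pow_le_pow_right (by norm_num) (by omega)
  -- the code
  obtain ⟨S, hS⟩ := exists_sparse4 (R := Row a (r * β)) (m := m) ((2 * c) * (2 * (r * β))) hm0
    (by
      have h0 : Fintype.card (Row a (r * β)) = a * (2 * (r * β)) := by
        simp [Row]
      rw [h0, hm]
      have h1 : 1536 * (a * (c * r ^ 2)) ≤ m1 ^ 2 := by
        have h2 : 1536 * a ≤ 1600 * m1 := by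
          have h3 : 1536 * c ≤ 64 * m1 := by omega
          omega
        calc 1536 * (a * (c * r ^ 2)) = (1536 * a) * (c * r ^ 2) := by ring
          _ ≤ (1600 * m1) * (c * r ^ 2) := Nat.mul_le_mul_right _ h2
          _ = m1 * m1 := by rw [hm1]; ring
          _ = m1 ^ 2 := by ring
      calc 192 * (a * (2 * (r * β)) * (2 * c * (2 * (r * β))))
          = β ^ 2 * (1536 * (a * (c * r ^ 2))) := by ring
        _ ≤ β ^ 2 * m1 ^ 2 := Nat.mul_le_mul_left _ h1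
        _ = (β * m1) ^ 2 := by ring)
  have hspread := spread_code (sparseCode S) (sparseCode_indep S hS)
  -- noise
  set L := 5 * (lam * c) with hL
  have hlc : 1 ≤ lam * c := Nat.one_le_iff_ne_zero.2 (by positivity)
  have hL1 : L + 1 ≤ 6 * (lam * c) := by omega
  set D := (L + 1) * J * 2 ^ β with hD
  have hD0 : 0 < D := by positivity
  have hcov := covers_enNoise (X := Ground a (r * β)) hD0 (J := J) (c := c) hJ1 hcJ
  have hκ : (0 : ℝ) ≤ (1 / 2 : ℝ) ^ (2 * (r * β)) := pow_nonneg (by norm_num) _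
  have hB1 : 1 ≤ 32 * (J : ℝ) * D := by
    have h1 : (1 : ℝ) ≤ J := by exact_mod_cast hJ1
    have h2 : (1 : ℝ) ≤ D := by exact_mod_cast hD0
    have h3 : (1 : ℝ) ≤ J * D := one_le_mul_of_one_le_of_one_le h1 h2
    have h4 : 32 * (J : ℝ) * D = 32 * (J * D) := by ring
    rw [h4]
    linarith only [h3]
  set N := enNoise (X := Ground a (r * β)) hD0 J with hN
  have hpow : (1 / 2 : ℝ) ^ (2 * (r * β)) * (2 : ℝ) ^ (2 * (r * β)) = 1 := by
    rw [← mul_pow]; norm_num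
  have hpowβ : (1 / 2 : ℝ) ^ β * (2 : ℝ) ^ β = 1 := by
    rw [← mul_pow]; norm_num
  have h2β0 : (0 : ℝ) < 2 ^ β := by positivity
  have hτ0 : (0 : ℝ) < (1 / 2 : ℝ) ^ β := by positivity
  have hτ1 : (1 / 2 : ℝ) ^ β ≤ 1 := pow_le_one₀ (by norm_num) (by norm_num)
  -- `x * 2^(2β) ≤ 2^(2b)` gives `x * κ * 2^β ≤ τ`
  have hgen : ∀ x z : ℕ, x * 2 ^ (2 * β) ≤ z * 2 ^ (2 * (r * β)) →
      (x : ℝ) * 2 ^ β * (1 / 2 : ℝ) ^ (2 * (r * β)) ≤ (1 / 2 : ℝ) ^ β * z := by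
    intro x z hxz
    have h1 : ((x * 2 ^ (2 * β) : ℕ) : ℝ) ≤ ((z * 2 ^ (2 * (r * β)) : ℕ) : ℝ) := by
      exact_mod_cast hxz
    push_cast at h1
    have h2 : (2 : ℝ) ^ (2 * β) = 2 ^ β * 2 ^ β := by rw [← pow_add]; congr 1; ring
    rw [h2] at h1
    have h3 := mul_le_mul_of_nonneg_left h1 (mul_nonneg hκ hτ0.le)
    have h4 : (1 / 2 : ℝ) ^ (2 * (r * β)) * (1 / 2) ^ β * (x * (2 ^ β * 2 ^ β)) =
        x * 2 ^ β * (1 / 2 : ℝ) ^ (2 * (r * β)) * ((1 / 2 : ℝ) ^ β * (2 : ℝ) ^ β) := by ring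
    have h5 : (1 / 2 : ℝ) ^ (2 * (r * β)) * (1 / 2) ^ β * (z * 2 ^ (2 * (r * β))) =
        (1 / 2) ^ β * z * ((1 / 2 : ℝ) ^ (2 * (r * β)) * (2 : ℝ) ^ (2 * (r * β))) := by ring
    rw [h4, h5, hpow, hpowβ, mul_one, mul_one] at h3
    exact h3
  refine ⟨a, r, m, S, N, 32 * (J : ℝ) * D, (1 / 2 : ℝ) ^ (2 * (r * β)), ha0, by omega, ha1601, hrβ, hr4',
    hXcard, ?_, ?_⟩
  · refine ⟨by omega, hc1, hB1, hcov, hκ, hτ0, hτ1, hspread, ?_, ?_⟩
    · have h1 : (512 * J ^ 2 * (L + 1)) * 2 ^ (2 * β) ≤ 1 * 2 ^ (2 * (r * β)) := by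
        rw [one_mul]
        refine le_trans ?_ hr3
        apply Nat.mul_le_mul_right
        calc 512 * J ^ 2 * (L + 1) ≤ 512 * J ^ 2 * (6 * (lam * c)) := Nat.mul_le_mul_left _ hL1
          _ = 3072 * (J ^ 2 * lam * c) := by ring
          _ ≤ 4608 * (J ^ 2 * lam * (c + f)) := by
              apply Nat.mul_le_mul (by norm_num)
              exact Nat.mul_le_mul_left _ (by omega)
          _ = W := hW.symm
      have h2 := hgen _ _ h1
      push_cast at h2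
      rw [mul_one] at h2
      refine le_trans (le_of_eq ?_) h2
      rw [hD]
      push_cast
      ring
    · have h1 : (768 * J ^ 2 * (L + 1) * f) * 2 ^ (2 * β) ≤ c * 2 ^ (2 * (r * β)) := by
        refine le_trans ?_ (Nat.mul_le_mul_left c hr3)
        rw [← mul_assoc]
        apply Nat.mul_le_mul_right
        calc 768 * J ^ 2 * (L + 1) * f ≤ 768 * J ^ 2 * (6 * (lam * c)) * f :=
              Nat.mul_le_mul_right _ (Nat.mul_le_mul_left _ hL1)
          _ = c * (4608 * (J ^ 2 * lam * f)) := by ring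
          _ ≤ c * (4608 * (J ^ 2 * lam * (c + f))) := by
              apply Nat.mul_le_mul_left
              apply Nat.mul_le_mul_left
              exact Nat.mul_le_mul_left _ (by omega)
          _ = c * W := by rw [hW]
      have h2 := hgen _ _ h1
      push_cast at h2
      refine le_trans (le_of_eq ?_) h2
      rw [hD]
      push_cast
      ring
  · refine (few_enNoise hD0 J (L + 1) (wordSet (sparseCode S))
      (card_wordSet (sparseCode S))).trans ?_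
    rw [Fintype.card_fun, ZMod.card, Fintype.card_fin]
    have h1 : (((L + 1) * J : ℕ) : ℝ) / (D : ℝ) ≤ (1 / 2) ^ β := by
      rw [div_le_iff₀ (by exact_mod_cast hD0), hD]
      push_cast
      have : (1 / 2 : ℝ) ^ β * (((L : ℝ) + 1) * J * 2 ^ β) =
          ((L : ℝ) + 1) * J * ((1 / 2 : ℝ) ^ β * (2 : ℝ) ^ β) := by ring
      rw [this, hpowβ, mul_one]
    calc (((2 ^ m : ℕ) : ℝ)) * ((((L + 1) * J : ℕ) : ℝ) / (D : ℝ)) ^ a
        ≤ ((2 ^ m : ℕ) : ℝ) * ((1 / 2) ^ β) ^ a := by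
          apply mul_le_mul_of_nonneg_left _ (by positivity)
          exact pow_le_pow_left₀ (by positivity) h1 a
      _ = (1 / 2 : ℝ) ^ (β * c) := by
          rw [ha, pow_add, ← pow_mul, ← pow_mul, ← hm]
          push_cast
          rw [← mul_assoc, ← mul_pow]
          norm_num
      _ ≤ (1 / 2 : ℝ) ^ (2 * l) :=
          pow_le_pow_of_le_one (by norm_num) (by norm_num) (by rw [mul_comm β c]; omega)

end Pool.Agent.T9h35.TX
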