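import Pool.Agent.T9h35.TX.Block
import Pool.Agent.T9h35.TX.Gadget
import Pool.Agent.T9h35.RW.Functional
import Pool.Agent.T9h34.W.WGrid
import Pool.Agent.T9h34.W.Embed

set_option autoImplicit false

/-!
The reduction to one Boolean function on a grid of blocks, letters of `β` bits.
-/

namespace Pool.Agent.T9h35.TX

open Finset Pool.Agent.T9h34.S Pool.Agent.T9h34.S.Gr
open Pool.Agent.T9h34 (ind ind_of ind_not ind_nonneg ind_le_one ind_mono smalls Ev Ev_mono Spread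
  chi pull Ground wordSet card_wordSet graphInput)
open Pool.Agent.T9h34.G (Row sparseCode NoiseOp)
open Pool.Agent.T9h34.W (Mg Mg_monotone gscore_le_Mg exists_enum ind_filter_sum)
open scoped Classical

/-- The sizes of the block. -/
theorem tsizes {L0 f z l w y β c J lam a r : ℕ} (hL1 : 1 ≤ L0)
    (hz : z = Nat.log 2 (L0 + f) + 1) (hl : l = 2 * L0 + 100) (hw : w = 2 * l + f + 2)
    (hy : y = Nat.log 2 w) (hβ : 1 ≤ β) (hβl : β ≤ l) (hc : c = 3 * l / β + 1) (hJ : J = y + 2)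
    (hlam : lam = 16 * (y + β)) (hr1 : 1 ≤ r) (ha : a ≤ 1601 * (c * r ^ 2))
    (hrβ : r * β ≤ 9 * (y + β))
    (h2b : 2 ^ (2 * (r * β)) ≤ 4608 * (J ^ 2 * lam * (c + f)) * 2 ^ (4 * β)) :
    (a * 2 + a * (2 * r)) * β ^ 4 ≤ 10 ^ 12 * (L0 * (z + β) ^ 3) ∧
    (4 * (a * 2 * 2 ^ (r * β) + a * (2 * r) * 2 ^ (4 * β))) ^ 2 ≤
      4 * 10 ^ 33 * (L0 ^ 2 * (L0 + f) * z ^ 7 * 2 ^ (9 * β)) := by
  have hlL : l ≤ 102 * L0 := by omega
  have hwL : w ≤ 206 * (L0 + f) := by omega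
  have hyz : y ≤ z + 7 := by
    have h1 : w < 2 ^ z * 2 ^ 8 := by
      have h2 : L0 + f < 2 ^ z := by rw [hz]; exact Nat.lt_pow_succ_log_self (by norm_num) _
      calc w ≤ 206 * (L0 + f) := hwL
        _ < 206 * 2 ^ z := Nat.mul_lt_mul_of_pos_left h2 (by norm_num)
        _ ≤ 256 * 2 ^ z := Nat.mul_le_mul_right _ (by norm_num)
        _ = 2 ^ z * 2 ^ 8 := by ring
    rw [← pow_add] at h1
    have h3 : Nat.log 2 w < z + 8 := (Nat.log_lt_iff_lt_pow (by norm_num) (by omega)).2 h1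
    omega
  have hz1 : 1 ≤ z := by omega
  have hy1 : 1 ≤ y := by
    rw [hy]
    have h1 : Nat.log 2 (2 ^ 1) ≤ Nat.log 2 w := Nat.log_mono_right (by omega)
    rwa [Nat.log_pow (by norm_num)] at h1
  have hy8 : y ≤ 8 * z := by omega
  have hc3 : c ≤ 4 * l := by
    rw [hc]
    have := Nat.div_le_self (3 * l) β
    omega
  have hcβ : c * β ≤ 4 * l := by
    rw [hc, Nat.add_mul, one_mul]
    have := Nat.div_mul_le_self (3 * l) β
    omega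
  have hw2 : c + f ≤ 2 * w := by
    have h1 : c ≤ 3 * l + 1 := by
      rw [hc]
      have := Nat.div_le_self (3 * l) β
      omega
    omega
  constructor
  · have h1 : y + β ≤ 8 * (z + β) := by omega
    calc (a * 2 + a * (2 * r)) * β ^ 4 = a * (2 * (1 + r)) * β ^ 4 := by ring
      _ ≤ (1601 * (c * r ^ 2)) * (2 * (r + r)) * β ^ 4 := by
          apply Nat.mul_le_mul_right
          exact Nat.mul_le_mul ha (Nat.mul_le_mul_left _ (Nat.add_le_add_right hr1 r))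
      _ = 6404 * ((c * β) * (r * β) ^ 3) := by ring
      _ ≤ 6404 * ((4 * l) * (9 * (y + β)) ^ 3) :=
          Nat.mul_le_mul_left _ (Nat.mul_le_mul hcβ (Nat.pow_le_pow_left hrβ 3))
      _ = 18674064 * (l * (y + β) ^ 3) := by ring
      _ ≤ 18674064 * ((102 * L0) * (8 * (z + β)) ^ 3) :=
          Nat.mul_le_mul_left _ (Nat.mul_le_mul hlL (Nat.pow_le_pow_left h1 3))
      _ = 975234318336 * (L0 * (z + β) ^ 3) := by ring
      _ ≤ 10 ^ 12 * (L0 * (z + β) ^ 3) := Nat.mul_le_mul_right _ (by norm_num)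
  · have hr18 : r ≤ 18 * y := by
      have h1 : r * β ≤ (18 * y) * β := by
        refine hrβ.trans ?_
        have h2 : y ≤ y * β := Nat.le_mul_of_pos_right _ hβ
        have h3 : β ≤ y * β := Nat.le_mul_of_pos_left _ hy1
        have h4 : 18 * y * β = 9 * (y * β + y * β) := by ring
        rw [h4]
        omega
      exact Nat.le_of_mul_le_mul_right h1 hβ
    have haa : a ≤ 2074896 * (l * y ^ 2) := by
      calc a ≤ 1601 * (c * r ^ 2) := ha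
        _ ≤ 1601 * ((4 * l) * (18 * y) ^ 2) :=
            Nat.mul_le_mul_left _ (Nat.mul_le_mul hc3 (Nat.pow_le_pow_left hr18 2))
        _ = 2074896 * (l * y ^ 2) := by ring
    have hJ3 : J ≤ 3 * y := by omega
    have hβ2 : 1 + β ≤ 2 ^ β := by rw [add_comm]; exact succ_le_two_pow β
    have hlamy : lam ≤ 16 * (y * 2 ^ β) := by
      rw [hlam]
      apply Nat.mul_le_mul_left
      calc y + β ≤ y + y * β := Nat.add_le_add_left (Nat.le_mul_of_pos_left _ hy1) _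
        _ = y * (1 + β) := by ring
        _ ≤ y * 2 ^ β := Nat.mul_le_mul_left _ hβ2
    obtain ⟨E, hE⟩ : ∃ E, E = 2 ^ β := ⟨_, rfl⟩
    have hE1 : 1 ≤ E := by rw [hE]; exact Nat.one_le_two_pow
    have hE4 : 2 ^ (4 * β) = E ^ 4 := by rw [hE, ← pow_mul]; congr 1; ring
    have hE9 : 2 ^ (9 * β) = E ^ 9 := by rw [hE, ← pow_mul]; congr 1; ring
    rw [hE4] at h2b
    rw [← hE] at hlamy
    rw [hE4, hE9]
    obtain ⟨A, hA'⟩ : ∃ A, A = a * 2 * 2 ^ (r * β) := ⟨_, rfl⟩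
    obtain ⟨B, hB'⟩ : ∃ B, B = a * (2 * r) * E ^ 4 := ⟨_, rfl⟩
    have hA : A ^ 2 ≤ 5308416 * (a ^ 2 * (y ^ 3 * w * E ^ 9)) := by
      calc A ^ 2 = 4 * a ^ 2 * 2 ^ (2 * (r * β)) := by
            rw [hA', mul_pow, mul_pow, ← pow_mul, mul_comm (r * β) 2]
            ring
        _ ≤ 4 * a ^ 2 * (4608 * (J ^ 2 * lam * (c + f)) * E ^ 4) :=
            Nat.mul_le_mul_left _ h2b
        _ ≤ 4 * a ^ 2 * (4608 * ((3 * y) ^ 2 * (16 * (y * E)) * (2 * w)) * E ^ 4) := by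
            apply Nat.mul_le_mul_left
            apply Nat.mul_le_mul_right
            apply Nat.mul_le_mul_left
            exact Nat.mul_le_mul (Nat.mul_le_mul (Nat.pow_le_pow_left hJ3 2) hlamy) hw2
        _ = 5308416 * (a ^ 2 * (y ^ 3 * w * E ^ 5)) := by ring
        _ ≤ 5308416 * (a ^ 2 * (y ^ 3 * w * E ^ 9)) := by
            apply Nat.mul_le_mul_left
            apply Nat.mul_le_mul_left
            apply Nat.mul_le_mul_left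
            exact Nat.pow_le_pow_right hE1 (by norm_num)
    have hB : B ^ 2 ≤ 1296 * (a ^ 2 * (y ^ 3 * w * E ^ 9)) := by
      calc B ^ 2 = 4 * (a ^ 2 * (r ^ 2 * E ^ 8)) := by rw [hB']; ring
        _ ≤ 4 * (a ^ 2 * ((18 * y) ^ 2 * E ^ 8)) := by
            apply Nat.mul_le_mul_left
            apply Nat.mul_le_mul_left
            exact Nat.mul_le_mul_right _ (Nat.pow_le_pow_left hr18 2)
        _ = 1296 * (a ^ 2 * (y ^ 2 * 1 * E ^ 8)) := by ring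
        _ ≤ 1296 * (a ^ 2 * (y ^ 3 * w * E ^ 9)) := by
            apply Nat.mul_le_mul_left
            apply Nat.mul_le_mul_left
            apply Nat.mul_le_mul
            · apply Nat.mul_le_mul
              · exact Nat.pow_le_pow_right hy1 (by norm_num)
              · omega
            · exact Nat.pow_le_pow_right hE1 (by norm_num)
    rw [← hA', ← hB']
    have hAB : (4 * (A + B)) ^ 2 ≤ 169910784 * (a ^ 2 * (y ^ 3 * w * E ^ 9)) := by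
      have h1 : (4 * (A + B)) ^ 2 ≤ 32 * (A ^ 2 + B ^ 2) := by
        zify
        nlinarith [sq_nonneg ((A : ℤ) - B)]
      omega
    have h1 : l ^ 2 ≤ (102 * L0) ^ 2 := Nat.pow_le_pow_left hlL 2
    have h2 : y ^ 7 ≤ (8 * z) ^ 7 := Nat.pow_le_pow_left hy8 7
    calc (4 * (A + B)) ^ 2 ≤ 169910784 * (a ^ 2 * (y ^ 3 * w * E ^ 9)) := hAB
      _ ≤ 169910784 * ((2074896 * (l * y ^ 2)) ^ 2 * (y ^ 3 * w * E ^ 9)) :=
          Nat.mul_le_mul_left _ (Nat.mul_le_mul_right _ (Nat.pow_le_pow_left haa 2))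
      _ = (169910784 * 2074896 ^ 2) * ((l ^ 2 * w) * y ^ 7 * E ^ 9) := by ring
      _ ≤ (169910784 * 2074896 ^ 2) *
            ((((102 * L0) ^ 2) * (206 * (L0 + f))) * (8 * z) ^ 7 * E ^ 9) := by
          apply Nat.mul_le_mul_left
          apply Nat.mul_le_mul_right
          exact Nat.mul_le_mul (Nat.mul_le_mul h1 hwL) h2
      _ = (169910784 * 2074896 ^ 2 * 102 ^ 2 * 206 * 8 ^ 7) *
            (L0 ^ 2 * (L0 + f) * z ^ 7 * E ^ 9) := by ring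
      _ ≤ 4 * 10 ^ 33 * (L0 ^ 2 * (L0 + f) * z ^ 7 * E ^ 9) :=
          Nat.mul_le_mul_right _ (by norm_num)

/-- The data of a grid for which `n - q` is large. -/
theorem tgrid_case {n q f L0 z β : ℕ} (hqn : q ≤ n) (hL1 : 1 ≤ L0) (hn : n < 2 ^ L0)
    (hβ : 1 ≤ β) (hβL : β ≤ L0)
    (hz : z = Nat.log 2 (L0 + f) + 1) (hq : 10 ^ 12 * (L0 * (z + β) ^ 3) ≤ q * β ^ 4)
    (hbig : 4 * 10 ^ 33 * (L0 ^ 2 * (L0 + f) * z ^ 7 * 2 ^ (9 * β)) < (n - q) ^ 2) :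
    ∃ (a r m p l c lam : ℕ) (S : Row a (r * β) → Fin 4 → Fin m)
      (N : NoiseOp (Ground a (r * β)))
      (B κ : ℝ) (e : ℕ → Fin p × Fin p) (σ : Fin n × Fin n → GGround a (r * β) p ⊕ Bool)
      (μ : SimpleGraph (Fin n) → ℝ),
      2 ^ L0 ≤ 2 ^ l ∧ 100 ≤ l ∧ β ≤ lam ∧ 3 * l < c * β ∧
      Fintype.card (Ground a (r * β)) + 1 ≤ 2 ^ lam ∧
      Hyp N (wordSet (sparseCode S)) (5 * (lam * c)) c f B κ ((1 / 2 : ℝ) ^ β) ∧
      ((p ^ 2 : ℕ) : ℝ) * (1 / 2 : ℝ) ^ (2 * l) ≤ 1 ∧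
      (∀ G, 0 ≤ μ G) ∧ ∑ G, μ G = 1 ∧
      ∀ (h : (Fin n × Fin n → Bool) → Bool) (Γ : ℝ),
        (Mg S (T9h34.S.powOp N (5 * (lam * c) + 1)) e (p ^ 2)).E
          (fun U W => ind (h (pull σ (chi U)) ≠ h (pull σ (chi W)))) ≤ Γ →
        ((n - q : ℕ) : ℝ) ^ 2 *
            ((∑ G with (h (graphInput G) = true ↔ ∃ T, G.IsNClique q T), μ G) - 1 / 2)
          ≤ 4 * 10 ^ 33 * (L0 ^ 2 * (L0 + f) * z ^ 7 * 2 ^ (9 * β)) * (Γ + 1) := by
  obtain ⟨l, hl⟩ : ∃ l, l = 2 * L0 + 100 := ⟨_, rfl⟩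
  obtain ⟨w, hw⟩ : ∃ w, w = 2 * l + f + 2 := ⟨_, rfl⟩
  obtain ⟨y, hy⟩ : ∃ y, y = Nat.log 2 w := ⟨_, rfl⟩
  obtain ⟨c, hc⟩ : ∃ c, c = 3 * l / β + 1 := ⟨_, rfl⟩
  obtain ⟨J, hJ⟩ : ∃ J, J = y + 2 := ⟨_, rfl⟩
  obtain ⟨lam, hlam⟩ : ∃ lam, lam = 16 * (y + β) := ⟨_, rfl⟩
  obtain ⟨a, r, m, S, N, B, κ, ha1, hr1, ha, hrβ, h2b, hX, H, hη⟩ :=
    tblock (l := l) (f := f) (w := w) (by omega) hβ hw hy hc hJ hlam
  have hcβ : 3 * l < c * β := by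
    rw [hc]
    have := Nat.lt_mul_div_succ (3 * l) hβ
    rwa [mul_comm β] at this
  obtain ⟨hgr, hw2⟩ := tsizes hL1 hz hl hw hy hβ (by omega) hc hJ hlam hr1 ha hrβ h2b
  have hgr' : a * 2 + a * (2 * r) ≤ q :=
    Nat.le_of_mul_le_mul_right (hgr.trans hq) (by positivity)
  obtain ⟨R, hR⟩ : ∃ R, R = L0 ^ 2 * (L0 + f) * z ^ 7 * 2 ^ (9 * β) := ⟨_, rfl⟩
  obtain ⟨K, hK⟩ : ∃ K, K = 4 * 10 ^ 33 * R := ⟨_, rfl⟩
  rw [← hR, ← hK] at hw2 hbig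
  obtain ⟨W0, hW0⟩ : ∃ W0, W0 = a * 2 * 2 ^ (r * β) + a * (2 * r) * 2 ^ (4 * β) := ⟨_, rfl⟩
  rw [← hW0] at hw2
  have hW0pos : 0 < W0 := by
    rw [hW0]
    have : 0 < a * 2 * 2 ^ (r * β) := by positivity
    omega
  have hWn : 4 * W0 < n - q := by
    have h1 : (4 * W0) ^ 2 < (n - q) ^ 2 := lt_of_le_of_lt hw2 hbig
    exact lt_of_pow_lt_pow_left₀ 2 (Nat.zero_le _) h1
  obtain ⟨p, hp⟩ : ∃ p, p = (n - q) / W0 := ⟨_, rfl⟩
  have hpW : p * W0 ≤ n - q := by rw [hp]; exact Nat.div_mul_le_self _ _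
  have hpW2 : n - q < (p + 1) * W0 := by
    rw [hp, mul_comm]
    exact Nat.lt_mul_div_succ _ hW0pos
  have hp0 : 0 < p := by
    rw [hp]
    exact Nat.div_pos (by omega) hW0pos
  obtain ⟨σ, Φ, hΦ, hσ⟩ := t_embedding (p := p) S ha1 hgr' hqn hp0
    (by rw [← hW0]; exact hpW)
  obtain ⟨e, he⟩ := exists_enum (M := p ^ 2) hp0 le_rfl
  have hM0 : 0 < p ^ 2 := by positivity
  have hpL : ((p : ℕ) : ℝ) ≤ 2 ^ L0 := by
    have h1 : p ≤ n := by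
      have h2 : p * 1 ≤ p * W0 := Nat.mul_le_mul_left _ hW0pos
      omega
    exact_mod_cast h1.trans hn.le
  have hMsmall : ((p ^ 2 : ℕ) : ℝ) * (((p ^ 2 : ℕ) : ℝ) * (1 / 2 : ℝ) ^ (2 * l)) ≤ 1 := by
    have h5 : (1 / 2 : ℝ) ^ (2 * l) ≤ (1 / 2) ^ (4 * L0) :=
      pow_le_pow_of_le_one (by norm_num) (by norm_num) (by omega)
    calc ((p ^ 2 : ℕ) : ℝ) * (((p ^ 2 : ℕ) : ℝ) * (1 / 2 : ℝ) ^ (2 * l))
        = (p : ℝ) ^ 4 * (1 / 2 : ℝ) ^ (2 * l) := by push_cast; ring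
      _ ≤ (2 ^ L0) ^ 4 * (1 / 2) ^ (4 * L0) := by
          apply mul_le_mul (pow_le_pow_left₀ (by positivity) hpL 4) h5 (by positivity)
            (by positivity)
      _ = 1 := by
          rw [← pow_mul, mul_comm L0 4, ← mul_pow]
          norm_num
  have hMsmall2 : ((p ^ 2 : ℕ) : ℝ) * (1 / 2 : ℝ) ^ (2 * l) ≤ 1 := by
    have h1 : (1 : ℝ) ≤ ((p ^ 2 : ℕ) : ℝ) := by exact_mod_cast hM0
    have h2 : (0 : ℝ) ≤ ((p ^ 2 : ℕ) : ℝ) * (1 / 2 : ℝ) ^ (2 * l) := by positivity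
    nlinarith
  refine ⟨a, r, m, p, l, c, lam, S, N, B, κ, e, σ,
    Gr.push (Gr.testOp S (T9h34.S.powOp N (5 * (lam * c) + 1)) e hM0) Φ,
    Nat.pow_le_pow_right (by norm_num) (by omega), by omega, by omega, hcβ, hX, H, hMsmall2,
    Gr.push_nonneg _ _, Gr.sum_push _ _, ?_⟩
  intro h Γ hΓ
  set N' := T9h34.S.powOp N (5 * (lam * c) + 1) with hN'
  have hmain := gscore_le_Mg (S := S) (N' := N') (p ^ 2) (by omega : 0 < a) he
    (by positivity : (0 : ℝ) ≤ (1 / 2 : ℝ) ^ (2 * l)) hη (fun Z => h (pull σ (chi Z)))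
  have hΓ0 : 0 ≤ Γ := by
    refine le_trans ?_ hΓ
    have h1 := (Mg S N' e (p ^ 2)).mono' (fun _ _ => 0)
      (fun U W => ind (h (pull σ (chi U)) ≠ h (pull σ (chi W)))) (fun _ _ => ind_nonneg _)
    rwa [(Mg S N' e (p ^ 2)).zero'] at h1
  rw [ind_filter_sum, Gr.sum_push_mul]
  have hT : (Gr.testOp S N' e hM0).E (fun Z => ind (h (graphInput (Φ Z)) = true ↔
      ∃ T, (Φ Z).IsNClique q T)) =
      Gr.gscore S N' e (p ^ 2) (fun Z => ind (h (pull σ (chi Z)) = true ↔ Gr.HasWord S Z)) /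
        (2 * ((p ^ 2 : ℕ) : ℝ)) := by
    unfold Gr.testOp
    simp only [hσ, hΦ]
  rw [hT]
  obtain ⟨A, hA⟩ : ∃ A, A = Gr.gscore S N' e (p ^ 2)
    (fun Z => ind (h (pull σ (chi Z)) = true ↔ Gr.HasWord S Z)) := ⟨_, rfl⟩
  rw [← hA] at hmain ⊢
  obtain ⟨M, hM⟩ : ∃ M : ℝ, M = ((p ^ 2 : ℕ) : ℝ) := ⟨_, rfl⟩
  rw [← hM] at hmain hMsmall ⊢
  have hMpos : (0 : ℝ) < M := by rw [hM]; exact_mod_cast hM0
  have hA2 : A ≤ M + (Γ + 1) := by linarith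
  have h1 : A / (2 * M) - 1 / 2 ≤ (Γ + 1) / (2 * M) := by
    rw [div_sub_div _ _ (by positivity) (by norm_num), div_le_div_iff₀ (by positivity)
      (by positivity)]
    nlinarith
  have h2 : ((n - q : ℕ) : ℝ) ^ 2 ≤ 4 * M * (W0 : ℝ) ^ 2 := by
    have h3 : n - q ≤ 2 * p * W0 := by nlinarith
    have h4 : ((n - q : ℕ) : ℝ) ≤ 2 * p * W0 := by exact_mod_cast h3
    calc ((n - q : ℕ) : ℝ) ^ 2 ≤ (2 * p * W0) ^ 2 := pow_le_pow_left₀ (by positivity) h4 2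
      _ = 4 * M * (W0 : ℝ) ^ 2 := by rw [hM]; push_cast; ring
  have h3 : (0 : ℝ) ≤ ((n - q : ℕ) : ℝ) ^ 2 := by positivity
  have h4 : (0 : ℝ) ≤ (Γ + 1) / (2 * M) := by positivity
  have h5 : (16 : ℝ) * W0 ^ 2 ≤ K := by
    have h6 : (((4 * W0) ^ 2 : ℕ) : ℝ) ≤ ((K : ℕ) : ℝ) := by exact_mod_cast hw2
    push_cast at h6
    calc (16 : ℝ) * W0 ^ 2 = (4 * W0) ^ 2 := by ring
      _ ≤ _ := h6
  have h6 : ((K : ℕ) : ℝ) = 4 * 10 ^ 33 * (L0 ^ 2 * (L0 + f) * z ^ 7 * 2 ^ (9 * β)) := by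
    rw [hK, hR]
    push_cast
    ring
  rw [← h6]
  calc ((n - q : ℕ) : ℝ) ^ 2 * (A / (2 * M) - 1 / 2)
      ≤ ((n - q : ℕ) : ℝ) ^ 2 * ((Γ + 1) / (2 * M)) := mul_le_mul_of_nonneg_left h1 h3
    _ ≤ (4 * M * (W0 : ℝ) ^ 2) * ((Γ + 1) / (2 * M)) := mul_le_mul_of_nonneg_right h2 h4
    _ = 2 * W0 ^ 2 * (Γ + 1) := by field_simp; ring
    _ ≤ 16 * W0 ^ 2 * (Γ + 1) := by
        apply mul_le_mul_of_nonneg_right _ (by linarith)
        nlinarith [sq_nonneg (W0 : ℝ)]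
    _ ≤ K * (Γ + 1) := mul_le_mul_of_nonneg_right h5 (by linarith)

end Pool.Agent.T9h35.TX
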